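import Mathlib
import Pool.Agent.Helper35.PI2.Defs

/-!
# Project CL (MP_b2fa09_gt): closed ancient surfaces, the sharp pinching constant `5/6`

Everything of the projects PI and PI2 (`Pool/Agent/Helper35/PI`, `PI2`) is proved and may be used.

Notation: `κ = 1/(2τ)`, `τ = -t`, `P = κ F^⊤`, `E = H + κ F^⊥`, `W = F^⊥ + l H` (`l = 2τ`, so
`W = 2τ E`), `X = |A|²`, `Y = |H|²`, `Z = Σ ⟨A_ij,H⟩²`, `U = Σ ⟨A_ij,H⟩ A_ij`,
`G = exp(-κ|F|²/2)`.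
-/

set_option autoImplicit false

namespace Helper32.CL

open Helper35.PI Helper35.PI2
open scoped ContDiff Manifold Topology ENNReal BigOperators
open MeasureTheory Set Filter

/-- Coefficient functions: `φ` depends on `(X,Y,Z,|W|²)`, the `a_i` depend on `(X,Y,Z)`. -/
structure Co where
  φ : ℝ × ℝ × ℝ × ℝ → ℝ
  a₁ : ℝ × ℝ × ℝ → ℝ
  a₂ : ℝ × ℝ × ℝ → ℝ
  a₃ : ℝ × ℝ × ℝ → ℝ

/-- all coefficient functions are smooth -/
structure Co.Smooth (c : Co) : Prop where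
  sφ : ContDiff ℝ ∞ c.φ
  s₁ : ContDiff ℝ ∞ c.a₁
  s₂ : ContDiff ℝ ∞ c.a₂
  s₃ : ContDiff ℝ ∞ c.a₃

section Local

variable {n N : ℕ}

/-- `(X, Y, Z)` -/
noncomputable def i3 (f : EE n → EE N) (x : EE n) : ℝ × ℝ × ℝ :=
  (nsq f x, ‖mcv f x‖ ^ 2, zsq f x)

/-- `W = f^⊥ + l H` -/
noncomputable def wvl (l : ℝ) (f : EE n → EE N) (x : EE n) : EE N :=
  nrm f x (f x) + l • mcv f x

/-- `(X, Y, Z, |W|²)` -/
noncomputable def i4 (l : ℝ) (f : EE n → EE N) (x : EE n) : ℝ × ℝ × ℝ × ℝ :=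
  (nsq f x, ‖mcv f x‖ ^ 2, zsq f x, ‖wvl l f x‖ ^ 2)

/-- `U = g^ik g^jl ⟨A_kl, H⟩ A_ij` -/
noncomputable def uvf (f : EE n → EE N) (x : EE n) : EE N :=
  ∑ i, ∑ j, ∑ k, ∑ l, ((gram f x)⁻¹ i k * (gram f x)⁻¹ j l *
    inner ℝ (sff f x k l) (mcv f x)) • sff f x i j

/-- the normal field `a₁ H + a₃ U` -/
noncomputable def nvf (c : Co) (f : EE n → EE N) (x : EE n) : EE N :=
  c.a₁ (i3 f x) • mcv f x + c.a₃ (i3 f x) • uvf f x

/-- the covector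
`G (∂_k φ(X,Y,Z,|W|²) + a₂ P_k + ⟨a₁ H + a₃ U, A_kl⟩ P^l)`, `P_k = κ⟨f, f_k⟩`. -/
noncomputable def wc (κ l : ℝ) (c : Co) (f : EE n → EE N) (x : EE n) (k : Fin n) : ℝ :=
  Real.exp (-(κ * ‖f x‖ ^ 2 / 2)) *
    (fderiv ℝ (fun y => c.φ (i4 l f y)) x (ee k)
      + κ * (c.a₂ (i3 f x) * inner ℝ (f x) (dv1 f x k)
        + ∑ a, ∑ m, (gram f x)⁻¹ a m *
          (inner ℝ (nvf c f x) (sff f x k a) * inner ℝ (f x) (dv1 f x m))))

/-- the tangential field `g^kl w_k ∂_l f` -/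
noncomputable def wf (κ l : ℝ) (c : Co) (f : EE n → EE N) (x : EE n) : EE N :=
  ∑ k, ∑ m, ((gram f x)⁻¹ k m * wc κ l c f x k) • dv1 f x m

/-! Algebraic quantities: `A`, `T` the jets in an orthonormal frame, `ν = F^⊥`,
`v k = ⟨F, e_k⟩`. -/

/-- `U = Σ z_ij A_ij` -/
noncomputable def Uv (A : Fin n → Fin n → EE N) : EE N := ∑ i, ∑ j, zz A i j • A i j
/-- `∇_k U` -/
noncomputable def dU (A : Fin n → Fin n → EE N) (T : Fin n → Fin n → Fin n → EE N)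
    (k : Fin n) : EE N := ∑ i, ∑ j, (gz A T i j k • A i j + zz A i j • T i j k)
/-- `W = ν + l H` -/
noncomputable def Wl (l : ℝ) (A : Fin n → Fin n → EE N) (ν : EE N) : EE N := ν + l • Hv A
/-- `∇_k W = l ∇_k H - Σ_a v_a A_ka` -/
noncomputable def DW (l : ℝ) (A : Fin n → Fin n → EE N) (T : Fin n → Fin n → Fin n → EE N)
    (v : Fin n → ℝ) (k : Fin n) : EE N := l • et T k - ∑ a, v a • A k a
/-- gradient of `|W|²` -/
noncomputable def gW (l : ℝ) (A : Fin n → Fin n → EE N) (T : Fin n → Fin n → Fin n → EE N)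
    (ν : EE N) (v : Fin n → ℝ) (k : Fin n) : ℝ := 2 * inner ℝ (Wl l A ν) (DW l A T v k)
/-- `(∂_t - Δ)|W|²` (`l` fixed) -/
noncomputable def hW (l : ℝ) (A : Fin n → Fin n → EE N) (T : Fin n → Fin n → Fin n → EE N)
    (ν : EE N) (v : Fin n → ℝ) : ℝ :=
  -2 * (∑ k, ‖DW l A T v k‖ ^ 2) + 2 * (∑ i, ∑ j, inner ℝ (A i j) (Wl l A ν) ^ 2)
    + 4 * inner ℝ (Hv A) (Wl l A ν)
/-- `(X, Y, Z)` -/
noncomputable def J3 (A : Fin n → Fin n → EE N) : ℝ × ℝ × ℝ := (XX A, YY A, ZZ A)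
/-- `(X, Y, Z, |W|²)` -/
noncomputable def J4 (l : ℝ) (A : Fin n → Fin n → EE N) (ν : EE N) : ℝ × ℝ × ℝ × ℝ :=
  (XX A, YY A, ZZ A, ‖Wl l A ν‖ ^ 2)
/-- gradient of `(X,Y,Z)` -/
noncomputable def g3 (A : Fin n → Fin n → EE N) (T : Fin n → Fin n → Fin n → EE N)
    (k : Fin n) : ℝ × ℝ × ℝ := (gX A T k, gY A T k, gZ A T k)
/-- gradient of `(X,Y,Z,|W|²)` -/
noncomputable def g4 (l : ℝ) (A : Fin n → Fin n → EE N) (T : Fin n → Fin n → Fin n → EE N)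
    (ν : EE N) (v : Fin n → ℝ) (k : Fin n) : ℝ × ℝ × ℝ × ℝ :=
  (gX A T k, gY A T k, gZ A T k, gW l A T ν v k)
/-- heat of `(X,Y,Z,|W|²)` -/
noncomputable def h4 (l : ℝ) (A : Fin n → Fin n → EE N) (T : Fin n → Fin n → Fin n → EE N)
    (ν : EE N) (v : Fin n → ℝ) : ℝ × ℝ × ℝ × ℝ := (hX A T, hY A T, hZ A T, hW l A T ν v)
/-- gradient of `φ(X,Y,Z,|W|²)` -/
noncomputable def gph (l : ℝ) (c : Co) (A : Fin n → Fin n → EE N)
    (T : Fin n → Fin n → Fin n → EE N) (ν : EE N) (v : Fin n → ℝ) (k : Fin n) : ℝ :=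
  fderiv ℝ c.φ (J4 l A ν) (g4 l A T ν v k)
/-- `(∂_t - Δ) φ(X,Y,Z,|W|²)` -/
noncomputable def hph (l : ℝ) (c : Co) (A : Fin n → Fin n → EE N)
    (T : Fin n → Fin n → Fin n → EE N) (ν : EE N) (v : Fin n → ℝ) : ℝ :=
  fderiv ℝ c.φ (J4 l A ν) (h4 l A T ν v)
    - ∑ k, fderiv ℝ (fun y => fderiv ℝ c.φ y (g4 l A T ν v k)) (J4 l A ν) (g4 l A T ν v k)
/-- `a₁ H + a₃ U` -/
noncomputable def Na (c : Co) (A : Fin n → Fin n → EE N) : EE N :=
  c.a₁ (J3 A) • Hv A + c.a₃ (J3 A) • Uv A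
/-- `∇_k (a₁ H + a₃ U)` -/
noncomputable def dNa (c : Co) (A : Fin n → Fin n → EE N) (T : Fin n → Fin n → Fin n → EE N)
    (k : Fin n) : EE N :=
  fderiv ℝ c.a₁ (J3 A) (g3 A T k) • Hv A + c.a₁ (J3 A) • et T k
    + fderiv ℝ c.a₃ (J3 A) (g3 A T k) • Uv A + c.a₃ (J3 A) • dU A T k
/-- `V_k = ⟨N, A_ka⟩ P_a + a₂ P_k` -/
noncomputable def Va (κ : ℝ) (c : Co) (A : Fin n → Fin n → EE N) (v : Fin n → ℝ)
    (k : Fin n) : ℝ :=
  κ * ((∑ a, inner ℝ (Na c A) (A k a) * v a) + c.a₂ (J3 A) * v k)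
/-- divergence of `V` -/
noncomputable def dVa (κ : ℝ) (c : Co) (A : Fin n → Fin n → EE N)
    (T : Fin n → Fin n → Fin n → EE N) (ν : EE N) (v : Fin n → ℝ) : ℝ :=
  κ * ((∑ k, ∑ a, (inner ℝ (dNa c A T k) (A k a) * v a
          + inner ℝ (Na c A) (A k a) * ((if k = a then 1 else 0) + inner ℝ ν (A k a))))
      + (∑ a, inner ℝ (Na c A) (et T a) * v a)
      + ∑ k, (fderiv ℝ c.a₂ (J3 A) (g3 A T k) * v k
          + c.a₂ (J3 A) * (1 + inner ℝ ν (A k k))))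
/-- the divergence of the field, divided by `G`, without the time derivative of `φ` -/
noncomputable def dvA (κ l : ℝ) (c : Co) (A : Fin n → Fin n → EE N)
    (T : Fin n → Fin n → Fin n → EE N) (ν : EE N) (v : Fin n → ℝ) : ℝ :=
  -hph l c A T ν v - κ * (∑ k, v k * gph l c A T ν v k) + dVa κ c A T ν v
    - κ * ∑ k, v k * Va κ c A v k

/-! Space-time functions of a graph. -/

/-- `(X,Y,Z,|W|²)` of the graph -/
noncomputable def i4f (l : ℝ) (x₀ : EE N) (L : EE n →ₗᵢ[ℝ] EE N) (u : EE n × ℝ → EE N)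
    (z : EE n × ℝ) : ℝ × ℝ × ℝ × ℝ := i4 l (grf x₀ L u z.2) z.1
/-- `W` of the graph -/
noncomputable def Wlf (l : ℝ) (x₀ : EE N) (L : EE n →ₗᵢ[ℝ] EE N) (u : EE n × ℝ → EE N)
    (z : EE n × ℝ) : EE N := wvl l (grf x₀ L u z.2) z.1
/-- `U` of the graph -/
noncomputable def Uf (x₀ : EE N) (L : EE n →ₗᵢ[ℝ] EE N) (u : EE n × ℝ → EE N)
    (z : EE n × ℝ) : EE N := uvf (grf x₀ L u z.2) z.1

/-- the jets `A`, `T`, `ν`, `v` at the centre of a graph -/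
structure IsJet (x₀ : EE N) (L : EE n →ₗᵢ[ℝ] EE N) (u : EE n × ℝ → EE N) (t₀ : ℝ)
    (A : Fin n → Fin n → EE N) (T : Fin n → Fin n → Fin n → EE N) (ν : EE N)
    (v : Fin n → ℝ) : Prop where
  jA : A = jgg u (0, t₀)
  jT : T = jggg u (0, t₀)
  jv : v = fun k => inner ℝ x₀ (L (ee k))
  jν : ν = x₀ - ∑ k, v k • L (ee k)

end Local

section Flow

variable {n N : ℕ} {M : Type} [TopologicalSpace M] [ChartedSpace (EE n) M]

/-- the field on `M_t` -/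
noncomputable def WFd (n : ℕ) {N : ℕ} {M : Type} [TopologicalSpace M] [ChartedSpace (EE n) M]
    (κ l : ℝ) (c : Co) (F : M → ℝ → EE N) (t : ℝ) (q : M) : EE N :=
  wf κ l c (loc (n := n) F q t) (chartAt (EE n) q q)
/-- `W = F^⊥ + l H` on `M_t` -/
noncomputable def wvF (n : ℕ) {N : ℕ} {M : Type} [TopologicalSpace M] [ChartedSpace (EE n) M]
    (l : ℝ) (F : M → ℝ → EE N) (q : M) (t : ℝ) : EE N :=
  wvl l (loc (n := n) F q t) (chartAt (EE n) q q)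
/-- `(X,Y,Z,|W|²)` on `M_t` -/
noncomputable def i4F (n : ℕ) {N : ℕ} {M : Type} [TopologicalSpace M] [ChartedSpace (EE n) M]
    (l : ℝ) (F : M → ℝ → EE N) (q : M) (t : ℝ) : ℝ × ℝ × ℝ × ℝ :=
  (AA (n := n) F q t, ‖HH (n := n) F q t‖ ^ 2, ZF (n := n) F q t, ‖wvF n l F q t‖ ^ 2)
/-- gradient along `M_t` of a function on `M`, in the preferred chart -/
noncomputable def gdM (n : ℕ) {N : ℕ} {M : Type} [TopologicalSpace M] [ChartedSpace (EE n) M]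
    (F : M → ℝ → EE N) (t : ℝ) (h : M → ℝ) (q : M) : EE N :=
  ∑ k, ∑ m, ((gram (loc (n := n) F q t) (chartAt (EE n) q q))⁻¹ k m *
    fderiv ℝ (fun y => h ((chartAt (EE n) q).symm y)) (chartAt (EE n) q q) (ee k)) •
      dv1 (loc (n := n) F q t) (chartAt (EE n) q q) m

/-- area measure on `M_t` (`M` carries its Borel sets) -/
noncomputable def muM (n : ℕ) {N : ℕ} {M : Type} [TopologicalSpace M] [MeasurableSpace M]
    [ChartedSpace (EE n) M] (F : M → ℝ → EE N) (c : ℕ → M) (χ : ℕ → M → ℝ) (t : ℝ) :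
    Measure M :=
  Measure.sum fun i => Measure.map (chartAt (EE n) (c i)).symm
    (((volume : Measure (EE n)).restrict (chartAt (EE n) (c i)).target).withDensity fun y =>
      ENNReal.ofReal (χ i ((chartAt (EE n) (c i)).symm y)) *
        ENNReal.ofReal (sgm (loc (n := n) F (c i) t) y))

/-- A closed flow together with a partition of unity. -/
structure Setup (n : ℕ) {N : ℕ} {M : Type} [TopologicalSpace M] [ChartedSpace (EE n) M]
    (F : M → ℝ → EE N) (c : ℕ → M) (χ : ℕ → M → ℝ) : Prop where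
  mcf : IsMCF (n := n) F
  pu : PU n c χ

/-- a function on space time which is continuous on `M × (-∞,0)` -/
def CST {M : Type} [TopologicalSpace M] {V : Type} [TopologicalSpace V] (g : M → ℝ → V) :
    Prop := ContinuousOn (fun z : M × ℝ => g z.1 z.2) (univ ×ˢ Iio 0)

end Flow

/-! ### The certificate (surfaces) -/

/-- `r = X Y - Z = Y |B|²` -/
noncomputable def rp (p : ℝ × ℝ × ℝ) : ℝ := p.1 * p.2.1 - p.2.2
/-- `m = Z - Y²/2` -/
noncomputable def mp (p : ℝ × ℝ × ℝ) : ℝ := p.2.2 - p.2.1 ^ 2 / 2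
/-- denominator `Y⁴ + δ⁴` -/
noncomputable def dn (δ : ℝ) (p : ℝ × ℝ × ℝ) : ℝ := p.2.1 ^ 4 + δ ^ 4

/-- `f = Y⁴/(Y⁴+δ⁴) · ½ Y (b + (9/80) m + (7/5) b m)`, `b = r/(2Y²)`, `m = m/(2Y²)` -/
noncomputable def fD (δ : ℝ) (p : ℝ × ℝ × ℝ) : ℝ :=
  (p.2.1 ^ 3 * (rp p / 4 + 9 / 320 * mp p) + 7 / 40 * (rp p * mp p * p.2.1)) / dn δ p
/-- coefficient of `z_kl` -/
noncomputable def a1D (δ : ℝ) (p : ℝ × ℝ × ℝ) : ℝ :=
  (-(p.2.1 ^ 2 * (rp p / 2 + 9 / 160 * mp p) + 7 / 20 * (rp p * mp p))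
    - (41 / 100 * p.2.1 ^ 2 + 3 / 2 * mp p) * (p.2.1 ^ 2 / 2 + mp p)
    + 9 / 40 * (rp p * p.2.1 ^ 2)
    + p.2.1 ^ 2 * (-(9 / 1000) * p.2.1 ^ 2 + 1 / 40 * mp p)) / dn δ p
/-- coefficient of `g_kl` (including the term `f P_k`) -/
noncomputable def a2D (δ : ℝ) (p : ℝ × ℝ × ℝ) : ℝ :=
  (-(9 / 80) * (rp p * p.2.1 ^ 3)
    - p.2.1 ^ 3 / 2 * (-(9 / 1000) * p.2.1 ^ 2 + 1 / 40 * mp p)) / dn δ p + fD δ p
/-- coefficient of `Q_kl = Σ z_ij ⟨A_ij,A_kl⟩` -/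
noncomputable def a3D (δ : ℝ) (p : ℝ × ℝ × ℝ) : ℝ :=
  (p.2.1 * (41 / 100 * p.2.1 ^ 2 + 3 / 2 * mp p)) / dn δ p

/-- the coefficient functions of the certificate -/
noncomputable def cD (δ : ℝ) : Co where
  φ := fun p => fD δ (p.1, p.2.1, p.2.2.1)
  a₁ := a1D δ
  a₂ := a2D δ
  a₃ := a3D δ

/-- the coefficient functions `φ(p)`, no field `V` -/
def cφ (φ : ℝ × ℝ × ℝ × ℝ → ℝ) : Co where
  φ := φ
  a₁ := fun _ => 0
  a₂ := fun _ => 0
  a₃ := fun _ => 0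

/-! ### The result -/

/-- Every ancient mean curvature flow of a closed connected surface (in any codimension) which is
uniformly `c`-pinched consists of round spheres (`|A|² = |H|²/2`) in one fixed
three-dimensional affine subspace. -/
def ForcesRound (c : ℝ) : Prop :=
  ∀ (N : ℕ), 3 ≤ N → ∀ (M : Type) [TopologicalSpace M] [T2Space M]
    [SecondCountableTopology M] [CompactSpace M] [ConnectedSpace M] [ChartedSpace (EE 2) M]
    [IsManifold (𝓡 2) ∞ M] (F : M → ℝ → EE N), IsMCF (n := 2) F → Pinched 2 c F →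
    CodimOne 2 F ∧ ∀ (p : M) (t : ℝ), t < 0 →
      AA (n := 2) F p t = ‖HH (n := 2) F p t‖ ^ 2 / 2

/-- Every closed ancient flow of dimension `n`, uniformly `c`-pinched, is of codimension one. -/
def ForcesClosed (n : ℕ) (c : ℝ) : Prop :=
  ∀ (N : ℕ), n + 1 ≤ N → ∀ (M : Type) [TopologicalSpace M] [T2Space M]
    [SecondCountableTopology M] [CompactSpace M] [ConnectedSpace M] [ChartedSpace (EE n) M]
    [IsManifold (𝓡 n) ∞ M] (F : M → ℝ → EE N), IsMCF (n := n) F → Pinched n c F → CodimOne n F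

/-- The sharp pinching constant of closed ancient solutions. -/
noncomputable def cClosed (n : ℕ) : EReal :=
  sSup {x : EReal | ∃ c : ℝ, x = (c : EReal) ∧ 0 < c ∧ ForcesClosed n c}

end Helper32.CL
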