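import Mathlib
import Pool.Agent.Helper32.CL.Defs
import Pool.Agent.Helper35.PI2.St

/-!
Module statements of project CL (MP_b2fa09_gt), part 4: algebra in dimension two.
-/

set_option autoImplicit false

namespace Helper32.CL

open Helper35.PI Helper35.PI2
open scoped ContDiff Manifold Topology ENNReal BigOperators
open MeasureTheory Set Filter

/-- The integrand `I(δ)`:
`dvA + f (κ²|F|² + κ⟨F,H⟩ + Y)`, `|F|² = |ν|² + Σ v²`. -/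
noncomputable def Ig {N : ℕ} (κ l δ : ℝ) (A : Fin 2 → Fin 2 → EE N)
    (T : Fin 2 → Fin 2 → Fin 2 → EE N) (ν : EE N) (v : Fin 2 → ℝ) : ℝ :=
  dvA κ l (cD δ) A T ν v
    + fD δ (J3 A) * (κ ^ 2 * (‖ν‖ ^ 2 + ∑ k, v k ^ 2) + κ * inner ℝ ν (Hv A) + YY A)

/-- `D_k = ∇_k H - κ Σ_a v_a A_ka` (`κ v = P`) -/
noncomputable def DE {N : ℕ} (κ : ℝ) (A : Fin 2 → Fin 2 → EE N)
    (T : Fin 2 → Fin 2 → Fin 2 → EE N) (v : Fin 2 → ℝ) (k : Fin 2) : EE N :=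
  et T k - κ • ∑ a, v a • A k a

/-- AS (proved by helper23 / helper32). The certificate on the jets of self-shrinkers, strict
form. Here `κ = 1`, `ν = -H` (so `E = H + κν = 0`), `P = v`, `∇_k H = Σ P_a A_ka`.

Complex form (checked numerically to 1e-14). `|H| = 1` after scaling, `e = (e₁ - i e₂)/√2`,
`φ = A(e,e) = ½(A₁₁ - A₂₂) - i A₁₂`, `h = ⟨φ,H⟩/Y`, `β = φ - hH`, `b = ⟨β,β̄⟩/Y`, `σ = ⟨β,β⟩/Y`,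
`m = |h|²`; rotate so that `h = μ ≥ 0`; `x = conj(P_e)`, `p = h_e` (derivative of `h`),
`n = ∇_e (β/|H|)` (normal to `H`), `W = ⟨n, β̄⟩`, so `|W|² ≤ b |n|²`; `q = ¼ - m + b`,
`g = μ(σ + b)`, `b_e = W - x g`, `m_e = μ(p + q x)`, `Z = m Re σ`, `Σ = |σ|² ≤ b²`,
`K = 1 + (7/5) m`, `L = 9/80 + (7/5) b`, `c = 127/100 + 6m`, `d = -9/20`, `e = -9/1000 + m/20`.
`I/Y² = z₀ + q/2`,
`z₀ = K(½b - 3b² + 2Z + Σ) - 4mbL - c(mb + Z) + d(mb - Z) - 2me`,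
`q = K(2|n|² + |x|²(8mb + 4Z + 2Σ - 6b² - b) - 4Re(p̄xσ))
 + L(2|p|² + 2q²|x|² + 4Re(μx̄W) - 4|x|²(mb+Z)) + (28/5) Re(m̄_e b_e)
 + c(2bq|x|² + 2Re(p̄xσ) + 2Re(μx̄W) - 2|x|²(mb+Z)) + 12 Re(m̄_e x g)
 + d(2Re(p̄xσ) - 2Re(μx̄W) + |x|²(-b/2 - 4mb - 2b² + 2Z)) + 4e(q+2m)|x|² + (1/5)Re(m̄_e x μ)`.
`W` enters linearly: `2K|n|² + Re(W ζ̄) ≥ -b|ζ|²/(8K)`, `ζ = μ((28/5)(p + qx) + (4L+2c-2d)x)`; the rest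
is a Hermitian form in `(p,x)`: `a|p|² + Re(p̄x(A₁σ + B₁)) + γ|x|²`,
`a = 2L - 2(7/5)²bm/K`, `A₁ = -4K+2c+2d+(12-28/5)m`, `B₁ = (12-28/5)mb + m/5 - (7/5)(bm/K)ζ₀`,
`ζ₀ = (28/5)q+4L+2c-2d`, `γ = (coefficient of |x|² above) + (12-28/5)mq(b+Re σ) + mq/5 - bmζ₀²/(8K)`.
On `b, m ≥ 0`, `b + m ≤ 1/6`, `|σ| ≤ b` its smallest eigenvalue is `≥ .0017`, and
`z₀ ≥ .001 (b(1-6(b+m)) + m)` (numerically). `2X - Y = 4(b+m)Y`. -/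
def StAS : Prop := ∀ c₀ : ℝ, c₀ < 5 / 6 → ∃ η : ℝ, 0 < η ∧ ∀ (N : ℕ)
    (A : Fin 2 → Fin 2 → EE N) (T : Fin 2 → Fin 2 → Fin 2 → EE N) (v : Fin 2 → ℝ) (l : ℝ),
    SymV A → Sym3V T → 0 < YY A → XX A ≤ c₀ * YY A → (∀ k, et T k = ∑ a, v a • A k a) →
    η * (YY A * (2 * XX A - YY A) + tq T + YY A * ∑ k, v k ^ 2)
      ≤ Ig 1 l 0 A T (-(Hv A)) v

/-- AR (hAS)(hPO-type facts). From the shrinker jets to all jets (`δ = 0`).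

Proof. Let `P = κ v`, `E = H + κ ν`, `D = DE`. (i) `Ig` depends on `(κ, ν, v)` only through `P`, `E`:
all terms contain `κv` or `κν` except those with the factor
`κ (a₁ Y + a₃ Z + 2 a₂)` (from `κ Σ ⟨N, A_kk⟩` and `κ a₂ Σ 1`), which vanish:
`a₁ Y + a₃ Z + 2a₂ = 0` for `δ = 0` (`ring` after clearing `Y⁴`); and
`κ²|ν|² + κ⟨ν,H⟩ + Y = |E|² - ⟨E,H⟩ + Y`, `κ²Σv² = |P|²`. So WLOG `κ = 1`.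
(ii) `Ig` is a polynomial of degree 2 in `(T, P, E)` with coefficients that are rational functions of `A`,
homogeneous, bounded for `X ≤ Y = 1`: for general `Y` the coefficients scale. Write `T = T₀ + S`,
`S_ijk = ¼(δ_ij D_k + δ_ik D_j + δ_jk D_i)`, so `Σ_i S_iik = D_k` and `et T₀ k = Σ P_a A_ka`;
`tq S ≤ C|D|²`. The difference `Ig(T,P,E) - Ig(T₀,P,0)` is at least
`-C|D|(√(tq T₀) + √Y|P|) - C|D|² - C|E|√Y·(2X-Y)^{1/2}·Y - C|E|²Y`: quadratic terms in `S`, and in `E`: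
`⟨E, A_kl⟩Ψ_kl + |E|² f` with `Ψ_kl = ⟨N, A_kl⟩ + (a₂ - f) δ_kl`, `|Ψ| ≤ C Y (2X-Y)^{1/2}/√Y..` : in
the notation of AS every entry of `Ψ/Y` is `O(√(b+m))`, so `|⟨E,A_kl⟩Ψ_kl| ≤ C|E| Y^{3/2} √(b+m) ≤
(η/4) Y(2X-Y) + C'|E|²Y`, and `f ≥ 0`. (iii) Cauchy-Schwarz with the coercive terms of AS. -/
def StAR : Prop := ∀ c₀ : ℝ, c₀ < 5 / 6 → ∃ η C : ℝ, 0 < η ∧ 0 ≤ C ∧ ∀ (N : ℕ)
    (A : Fin 2 → Fin 2 → EE N) (T : Fin 2 → Fin 2 → Fin 2 → EE N) (ν : EE N)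
    (v : Fin 2 → ℝ) (κ l : ℝ),
    SymV A → Sym3V T → 0 < YY A → XX A ≤ c₀ * YY A →
    η * (YY A * (2 * XX A - YY A))
        - C * ((∑ k, ‖DE κ A T v k‖ ^ 2) + ‖Hv A + κ • ν‖ ^ 2 * YY A)
      ≤ Ig κ l 0 A T ν v

/-- AF (no hypotheses). Facts on the certificate functions.

Proof. With `Y = YY A > 0`, `X ≤ Y`: `Z ≤ XY` (Cauchy-Schwarz, `Z = Σ⟨A_ij,H⟩²`), `Y² ≤ 2Z`
(`(Σ_i z_ii)² ≤ 2 Σ z_ii²`, `Σ z_ii = Y`), so `0 ≤ rp ≤ Y²/2`, `0 ≤ mp ≤ Y²/2`; `dn δ ≥ Y⁴`. If `Y = 0` then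
`X ≤ 0`, `A = 0`, all quantities vanish. Smoothness: `dn δ ≥ δ⁴ > 0` everywhere. -/
def StAF : Prop := (∀ δ : ℝ, 0 < δ → (cD δ).Smooth) ∧
    ∀ (N : ℕ) (A : Fin 2 → Fin 2 → EE N) (δ : ℝ), SymV A → 0 ≤ δ → XX A ≤ YY A →
      0 ≤ rp (J3 A) ∧ rp (J3 A) ≤ YY A ^ 2 / 2 ∧ 0 ≤ mp (J3 A) ∧ mp (J3 A) ≤ YY A ^ 2 / 2 ∧
      0 ≤ fD δ (J3 A) ∧ fD δ (J3 A) ≤ YY A ∧
      0 ≤ 2 * XX A - YY A

/-- AC (hAF). The factor `Y⁴/(Y⁴+δ⁴)`, `Y > 0`.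

Proof. On `{p : p.2.1 > 0}` every one of the four functions of `cD δ` is `ρ(p.2.1)` times the one of
`cD 0`, `ρ(Y) = Y⁴/(Y⁴+δ⁴)` (`field_simp; ring`; note `dn 0 p = Y⁴`). Product rule at `p = J3 A`
(`fderiv` of products near `p`; the functions of `cD 0` are smooth there), with `gY_k = gY A T k`,
`P_k = κ v_k`, `f = fD 0 (J3 A)`, `f_k = gph l (cD 0) .. k`, `V_k = Va κ (cD 0) A v k`: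
`gph δ k = ρ f_k + f ρ' gY_k`, `hph δ = ρ hph 0 + f(ρ' hY - ρ'' Σ gY_k²) - 2ρ' Σ gY_k f_k`,
`dVa δ = ρ dVa 0 + ρ' Σ gY_k V_k`, `Va δ k = ρ V_k`. So
`Ig δ = ρ Ig 0 - f(ρ' hY - ρ'' Σ gY²) + 2ρ' Σ gY_k f_k - f ρ' Σ P_k gY_k + ρ' Σ gY_k V_k`.
`Yρ' = 4ρ(1-ρ)`, `Y²ρ'' = 4ρ(1-ρ)(3-8ρ)`. Bounds (`X ≤ Y`, `tq = tq T`): `0 ≤ f ≤ Y`,
`|et T k|² ≤ 4 tq`, `|hY| ≤ C(tq + Y²)`, `Σ gY² ≤ C Y tq`, `|f_k| ≤ C √Y √tq` (the first derivatives of `fD 0` at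
`J3 A`: `|∂_X| ≤ C`, `|∂_Y| ≤ C`, `|∂_Z| ≤ C/Y`; `|gX| ≤ C√Y√tq`, `|gZ| ≤ C Y√Y√tq`), `|V_k| ≤ C Y |P|`. -/
def StAC : Prop := ∃ C : ℝ, 0 ≤ C ∧ ∀ (N : ℕ)
    (A : Fin 2 → Fin 2 → EE N) (T : Fin 2 → Fin 2 → Fin 2 → EE N) (ν : EE N)
    (v : Fin 2 → ℝ) (κ l δ : ℝ), SymV A → Sym3V T → 0 < YY A → XX A ≤ YY A → 0 < δ →
    ∀ ρ : ℝ, ρ = YY A ^ 4 / (YY A ^ 4 + δ ^ 4) →
    |Ig κ l δ A T ν v - ρ * Ig κ l 0 A T ν v|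
      ≤ C * (ρ * (1 - ρ) * (tq T + YY A ^ 2 + YY A * (κ ^ 2 * ∑ k, v k ^ 2)))

/-- AZ (hAF). The integrand vanishes where `A = 0`.

Proof. `XX A ≤ 0`, so `A = 0`, `J3 A = 0`, `gX = gY = gZ = 0`, `Hv A = 0`. The numerators of
`fD δ`, `a_iD δ` vanish at `0` to order `≥ 2` in `(X,Y,Z)`: `fderiv (fD δ) 0 = 0` (in coordinates), values `0`.
So `gph = 0`, `hph = fderiv .. (h4) - Σ fderiv (fun y => fderiv φ y (g4 k)) .. (g4 k)`, where the first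
three components of `g4 k` are `0` and `φ` does not depend on the fourth: both terms vanish.
`Na = 0`, `dNa k = fderiv a₁ (0) • 0 + 0 + .. = 0`, and `a₂ (0) = 0`, `fderiv a₂ (J3) (g3 k) = 0` as `g3 = 0`. -/
def StAZ : Prop := ∀ (N : ℕ) (A : Fin 2 → Fin 2 → EE N) (T : Fin 2 → Fin 2 → Fin 2 → EE N)
    (ν : EE N) (v : Fin 2 → ℝ) (κ l δ : ℝ), SymV A → Sym3V T → 0 < δ → XX A ≤ 0 →
    Ig κ l δ A T ν v = 0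

/-- AI (hAR)(hAC)(hAZ)(hAF). The main integrand inequality.

Proof. `Y = 0`: `XX A ≤ 0`, AZ; the left side is `≤ 0`. `Y > 0`: AC and `ρ ≤ 1` times AR
(`X ≤ c₀Y ≤ Y`; `2X - Y ≥ 0` by AF). -/
def StAI : Prop := ∀ c₀ : ℝ, c₀ < 5 / 6 → ∃ η C : ℝ, 0 < η ∧ 0 ≤ C ∧ ∀ (N : ℕ)
    (A : Fin 2 → Fin 2 → EE N) (T : Fin 2 → Fin 2 → Fin 2 → EE N) (ν : EE N)
    (v : Fin 2 → ℝ) (κ l δ : ℝ), SymV A → Sym3V T → XX A ≤ c₀ * YY A → 0 < δ →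
    ∀ ρ : ℝ, ρ = YY A ^ 4 / (YY A ^ 4 + δ ^ 4) →
    η * (ρ * (YY A * (2 * XX A - YY A)))
        - C * ((∑ k, ‖DE κ A T v k‖ ^ 2) + ‖Hv A + κ • ν‖ ^ 2 * YY A)
        - C * (ρ * (1 - ρ) * (tq T + YY A ^ 2 + YY A * (κ ^ 2 * ∑ k, v k ^ 2)))
      ≤ Ig κ l δ A T ν v

/-- SQ (no hypotheses). `Σ_ij |⟨A_ij, W⟩|² ≤ |A|²|W|²`, `|T|²` from the heat of `X`, and the surface
identity `2Z - 2AAH = Y(Y - X)`.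

Proof. Cauchy-Schwarz. `hX = -2 tq + 2 Sq A` and `Sq A ≤ 2 X²`: `Sq A = Σ⟨A_ij,A_kl⟩² + |R^⊥|²`-type sum;
directly `|Σ ⟨A_ij,A_kl⟩²| ≤ X²`, and `Σ 2(⟨A_ij,A_jk⟩⟨A_kl,A_li⟩ - ⟨A_ij,A_kl⟩⟨A_jk,A_li⟩) ≤ 4 X²` by
Cauchy-Schwarz; so `Sq A ≤ 5X²` suffices. Last: expand with `Fin.sum_univ_two`, `A 1 0 = A 0 1`. -/
def StSQ : Prop := (∀ (n N : ℕ) (A : Fin n → Fin n → EE N) (W : EE N),
      ∑ i, ∑ j, (inner ℝ (A i j) W : ℝ) ^ 2 ≤ XX A * ‖W‖ ^ 2) ∧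
    (∀ (N : ℕ) (A : Fin 2 → Fin 2 → EE N) (T : Fin 2 → Fin 2 → Fin 2 → EE N), SymV A →
      tq T ≤ 5 * XX A ^ 2 - hX A T / 2) ∧
    (∀ (N : ℕ) (A : Fin 2 → Fin 2 → EE N), SymV A →
      2 * ZZ A - 2 * AAH A = YY A * (YY A - XX A))

/-- SE (hT3)(hPE). The reaction for small `θ = 2X - Y`: there is one `μ ∈ (0,1)`.

Proof. `hX = -2 tq + 2 Sq`, `hY = -2 eq2 + 2ZZ`. Gradient part:
`-4(1+μ) tq + (2+4μ) eq2 ≤ -(4/3)(1-μ) tq` (T3, `n = 2`: `eq2 ≤ (4/3) tq`). Zero order: PE with `P, Q`,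
`|P|²+|Q|² = θ`, `κ² = (|P|²-|Q|²)²+4⟨P,Q⟩² ≤ θ²`:
`⟨P,H⟩²+⟨Q,H⟩² - (1+μ)((Y - (3/2)θ)θ + κ²/2) ≤ Yθ - (1+μ)Yθ + (3/2)(1+μ)θ²` since
`⟨P,H⟩² + ⟨Q,H⟩² ≤ Y(|P|²+|Q|²) = Yθ`. So it is `≤ -μYθ + 3θ²`. Take `μ = 1/2`, `δ = 1/2`, `C = 3`,
`δ₁ = 2/3`. Second claim: `Σ_k (gX-combination)²`: `vk 0 A T k = 2 gX - gY`, PV with `μ = 0`
(`Helper35.PI2.StPV`): `≤ 200 θ tq`. -/
def StSE : Prop := ∀ (N : ℕ) (A : Fin 2 → Fin 2 → EE N) (T : Fin 2 → Fin 2 → Fin 2 → EE N),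
    SymV A → Sym3V T →
    2 * (1 + 1 / 2) * hX A T - hY A T + 4 * (1 / 2) * eq2 T - 4 * (1 / 2) * AAH A
        - YY A * (2 * XX A - YY A)
      ≤ -(2 / 3) * tq T - 1 / 2 * (YY A * (2 * XX A - YY A)) + 3 * (2 * XX A - YY A) ^ 2 ∧
    0 ≤ 2 * XX A - YY A ∧
    ∑ k, vk 0 A T k ^ 2 ≤ 200 * (2 * XX A - YY A) * tq T

end Helper32.CL
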