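import Mathlib
import Pool.Agent.Helper32.CL.Defs
import Pool.Agent.Helper35.PI2.St

/-!
Module statements of project CL (MP_b2fa09_gt), part 1: measure, divergence theorem,
Michael-Simon inequality.

For each `StX` the module proves `theorem hX : StX`, taking the listed statements (of this
project, of project PI `Helper35/PI/St*.lean` or PI2 `Helper35/PI2/St.lean`, all of these proved)
as hypotheses in the listed order; others of PI, PI2 may be used too (say so when you post).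
Complete proofs are in the docstrings. `ρ = ‖F p t - y‖`.
-/

set_option autoImplicit false

namespace Helper32.CL

open Helper35.PI Helper35.PI2
open scoped ContDiff Manifold Topology ENNReal BigOperators
open MeasureTheory Set Filter

/-! ### Part B: the area measure of a closed flow -/

/-- MU (hEB)(hLT)(hI4). The measure `muM`: finite, its integrals are the sums `Lam`, `Ls`.

Proof. `s` = the finite set of `i` with `tsupport (χ i) ≠ ∅` (locally finite on a compact space: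
`LocallyFinite.finite_nonempty_of_compact`). `symm` is continuous on the open target, so
`AEMeasurable` for the restricted (and `withDensity`) measure (`ContinuousOn.aemeasurable`,
`restrict` commutes with `withDensity` up to the density; or use `Measure.map` of a function that
agrees a.e. with a measurable one: `ContinuousOn.measurable_piecewise`). Lower integral:
`lintegral_sum_measure`, `lintegral_map'`, `lintegral_withDensity_eq_lintegral_mul₀'` (the density is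
continuous on the target, EB third part for `σ`); this is `Lam` up to commutativity. Finite: for
`g = 1` only `i ∈ s` contribute and each term is the integral of a bounded function supported in the
compact set `chart (tsupport χ_i)` (LT for `g = 1`, `ofReal_integral_eq_lintegral_ofReal`).
Integral of a continuous `g` (bounded on a compact space, so integrable for a finite measure):
`integral_sum_measure` or: `g = g⁺ - g⁻`, `integral_eq_lintegral_of_nonneg_ae` and the lower integral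
formula with `Helper35.PI2.StLL` (proved: `Helper35.PI2.All.tLL`) for `g⁺`, `g⁻` and linearity of `Ls`
(LT). -/
def StMU : Prop := ∀ (n N : ℕ) (M : Type) [TopologicalSpace M] [T2Space M] [CompactSpace M]
    [MeasurableSpace M] [BorelSpace M] [ChartedSpace (EE n) M] [IsManifold (𝓡 n) ∞ M]
    (F : M → ℝ → EE N) (c : ℕ → M) (χ : ℕ → M → ℝ), Setup n F c χ →
    ∃ s : Finset ℕ, (∀ i ∉ s, ∀ q, χ i q = 0) ∧ ∀ t < 0,
      muM n F c χ t univ < ⊤ ∧
      (∀ g : M → ℝ≥0∞, Measurable g → ∫⁻ q, g q ∂muM n F c χ t = Lam (n := n) F c χ t g) ∧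
      ∀ g : M → ℝ, Continuous g → Integrable g (muM n F c χ t) ∧
        ∫ q, g q ∂muM n F c χ t = Ls n F c χ s t g

/-- FV (hMU)(hV6)(hV6a)(hI2)(hI3)(hI4). First variation formula.

Proof. V6 with compact support (`M` compact), `s` from MU: `∑_{i∈s} ∫ χ_i (dvg X + ⟨H,X⟩) σ = 0`, which is
`Ls s t (dvg X + ⟨H,X⟩)`. Continuity of `dvg X` near `q₀`: by V6a it is, on the source of the chart at
`q₀`, the sum of products of continuous functions of `chart q₀ q` (`X∘symm` is `C¹`, `gram⁻¹`, `dv1` of the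
smooth `loc F q₀ t` are continuous, SM). Then MU. -/
def StFV : Prop := ∀ (n N : ℕ) (M : Type) [TopologicalSpace M] [T2Space M] [CompactSpace M]
    [MeasurableSpace M] [BorelSpace M] [ChartedSpace (EE n) M] [IsManifold (𝓡 n) ∞ M]
    (F : M → ℝ → EE N) (c : ℕ → M) (χ : ℕ → M → ℝ), Setup n F c χ → ∀ t < 0,
    ∀ X : M → EE N, ContMDiff (𝓡 n) 𝓘(ℝ, EE N) 1 X →
      Continuous (fun q => dvg (n := n) F X q t) ∧
      ∫ q, (dvg (n := n) F X q t + inner ℝ (HH (n := n) F q t) (X q)) ∂muM n F c χ t = 0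

/-- TD (hMU)(hFU)(hV1)(hEB)(hI2)(hI3)(hI4). Time derivative of an integral.

Proof. MU: `∫ g q r ∂μ_r = Ls s r (g · r) = ∑_{i∈s} ∫_T χ_i (g(symm y) r σ(y,r))`. For each `i` and `y` in
the target `r ↦ g (symm y) r σ(y,r)` has the derivative `b(y,r) = (g' - |H|² g) σ` (V1: `∂_t σ = -|mcv|²σ`,
`mcv (loc ..) y = HH (symm y)` by I3; the flow equation `jt f = mcv` near every point of the chart, I2,
I3, as in `Helper95.PI` V10), jointly continuous (I4, EB third part, `CST g`, `CST g'`, `symm` continuous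
on the target). FU on `[t₀,t₁] ∋ t`: `∫ χ_i b(y,r)` is continuous in `r` and its integral is the
difference of the `∫ χ_i a(y,r)`; so `r ↦ ∫ χ_i a(y,r)` has the derivative `∫ χ_i b(y,t)` at `t`
(`intervalIntegral.integral_hasDerivAt_right` or the fundamental theorem of calculus). The second claim
(continuity) is the second part of FU. -/
def StTD : Prop := ∀ (n N : ℕ) (M : Type) [TopologicalSpace M] [T2Space M] [CompactSpace M]
    [MeasurableSpace M] [BorelSpace M] [ChartedSpace (EE n) M] [IsManifold (𝓡 n) ∞ M]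
    (F : M → ℝ → EE N) (c : ℕ → M) (χ : ℕ → M → ℝ), Setup n F c χ →
    (∀ g : M → ℝ → ℝ, CST g →
      ContinuousOn (fun t => ∫ q, g q t ∂muM n F c χ t) (Iio 0)) ∧
    ∀ g g' : M → ℝ → ℝ, CST g → CST g' → (∀ q, ∀ t < 0, HasDerivAt (g q) (g' q t) t) →
      ∀ t < 0, HasDerivAt (fun t => ∫ q, g q t ∂muM n F c χ t)
        (∫ q, (g' q t - ‖HH (n := n) F q t‖ ^ 2 * g q t) ∂muM n F c χ t) t

/-- FS (hMU)(hEB)(hI2)(hI3)(hV1). The measure has full support; compare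
`Pool/Agent/Helper35/PI2/M_ZE.lean`.

Proof. `0 = ∫ g dμ = ∑_{i∈s} ∫_T χ_i g σ` (MU), all terms are `≥ 0`, so `0`, and the continuous integrand
`χ_i g σ ≥ 0` vanishes on the open target. Choose `i` with `χ_i q > 0` (the sum is 1); `q` lies in the
source, `σ > 0` (V1, I3): `g q = 0`. -/
def StFS : Prop := ∀ (n N : ℕ) (M : Type) [TopologicalSpace M] [T2Space M] [CompactSpace M]
    [MeasurableSpace M] [BorelSpace M] [ChartedSpace (EE n) M] [IsManifold (𝓡 n) ∞ M]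
    (F : M → ℝ → EE N) (c : ℕ → M) (χ : ℕ → M → ℝ), Setup n F c χ → ∀ t < 0,
    ∀ g : M → ℝ, Continuous g → (∀ q, 0 ≤ g q) → ∫ q, g q ∂muM n F c χ t = 0 → ∀ q, g q = 0

/-- DC (hMU)(hTD). Dominated convergence in space time.

Proof. For each `t ∈ [t₁,t₂]` the inner integrals tend to `0` (dominated convergence for the finite
measure `μ_t`, bound `B`, `k j · t` continuous), and are bounded by `B μ_t(M)`, which is bounded on
`[t₁,t₂]` (TD with `g = 1`: continuous). They are continuous in `t` (TD). Dominated convergence in `t`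
(`intervalIntegral.tendsto_integral_filter_of_dominated_convergence`). -/
def StDC : Prop := ∀ (n N : ℕ) (M : Type) [TopologicalSpace M] [T2Space M] [CompactSpace M]
    [MeasurableSpace M] [BorelSpace M] [ChartedSpace (EE n) M] [IsManifold (𝓡 n) ∞ M]
    (F : M → ℝ → EE N) (c : ℕ → M) (χ : ℕ → M → ℝ), Setup n F c χ →
    ∀ (t₁ t₂ B : ℝ), t₁ ≤ t₂ → t₂ < 0 → ∀ k : ℕ → M → ℝ → ℝ, (∀ j, CST (k j)) →
    (∀ j q, ∀ t ∈ Icc t₁ t₂, |k j q t| ≤ B) →
    (∀ q, ∀ t ∈ Icc t₁ t₂, Tendsto (fun j => k j q t) atTop (𝓝 0)) →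
    Tendsto (fun j => ∫ t in t₁..t₂, ∫ q, k j q t ∂muM n F c χ t) atTop (𝓝 0)

/-! ### Part C: the Michael-Simon inequality for closed surfaces -/

/-- PR (hV6a)(hI2)(hI3)(hI4)(hNR)(hFR)(hSM). Product rules.

Proof. In the preferred chart at `q`, `f = loc F q t`, `G = (gram f)⁻¹`, everything at `y₀ = chart q q`.
(1) `dvg (h X) = Σ G_ij (h ⟨∂_i X, f_j⟩ + ∂_i h ⟨X, f_j⟩)`, and `⟨gdM h, X⟩ = Σ G_kl ∂_k h ⟨f_l, X⟩`.
(2) `r q = ‖v - nrm v‖²`, `v = F q t - y` (tangential part; NR: `v - nrm v` in the span, `nrm v` orthogonal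
to it), so `0 ≤ r ≤ ‖v‖²`. `⟨HH, v⟩ = ⟨HH, nrm v⟩` (`HH` is orthogonal to the tangent space),
`|..|² ≤ ‖HH‖²‖nrm v‖² = ‖HH‖²(‖v‖² - r)`. `gdM h` is tangent: `|⟨gdM h, v⟩| = |⟨gdM h, v - nrm v⟩|`.
`∂_i (ζ(‖v‖²) v) = 2ζ' ⟨v, f_i⟩ v + ζ f_i`, so
`dvg = ζ Σ G_ij g_ij + 2ζ' Σ G_ij ⟨v,f_i⟩⟨v,f_j⟩ = n ζ + 2 ζ' r` (the last sum is `⟨v, v - nrm v⟩ = r` by
the definition of `nrm`). `F(·,t)` is smooth on `M`, so the field is `C¹`. -/
def StPR : Prop := ∀ (n N : ℕ) (M : Type) [TopologicalSpace M] [ChartedSpace (EE n) M]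
    [IsManifold (𝓡 n) ∞ M] (F : M → ℝ → EE N), IsMCF (n := n) F → ∀ t < 0,
    (∀ h : M → ℝ, ContMDiff (𝓡 n) 𝓘(ℝ, ℝ) 1 h → ∀ X : M → EE N,
      ContMDiff (𝓡 n) 𝓘(ℝ, EE N) 1 X → ∀ q,
        dvg (n := n) F (fun q => h q • X q) q t
          = h q * dvg (n := n) F X q t + inner ℝ (gdM n F t h q) (X q)) ∧
    ∀ y : EE N, ∃ r : M → ℝ, (∀ q, 0 ≤ r q ∧ r q ≤ ‖F q t - y‖ ^ 2 ∧
        (inner ℝ (HH (n := n) F q t) (F q t - y) : ℝ) ^ 2
          ≤ ‖HH (n := n) F q t‖ ^ 2 * (‖F q t - y‖ ^ 2 - r q)) ∧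
      (∀ h : M → ℝ, ContMDiff (𝓡 n) 𝓘(ℝ, ℝ) 1 h → ∀ q,
        |(inner ℝ (gdM n F t h q) (F q t - y) : ℝ)| ≤ ‖gdM n F t h q‖ * Real.sqrt (r q)) ∧
      ∀ ζ : ℝ → ℝ, ContDiff ℝ 1 ζ →
        ContMDiff (𝓡 n) 𝓘(ℝ, EE N) 1 (fun q => ζ (‖F q t - y‖ ^ 2) • (F q t - y)) ∧
        ∀ q, dvg (n := n) F (fun q => ζ (‖F q t - y‖ ^ 2) • (F q t - y)) q t
          = n * ζ (‖F q t - y‖ ^ 2) + 2 * deriv ζ (‖F q t - y‖ ^ 2) * r q

/-- SB (hMU)(hV4)(hI2)(hI3)(hFR)(hSM). Area of small balls, `n = 2`.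

Proof. `f = loc F q t`, `y₀ = chart q q`, `f` smooth at `y₀`, `LI`. FR at `y₀`: `P` with
`Pᵀ g P = 1`, so `D = Df(y₀)∘P` is an isometry into `EE N` and `σ(y₀) = 1/|det P|`. Choose `r₀ > 0` such
that `B = {y₀ + P v : ‖v‖ < r₀}` lies in the target, `symm B ⊆ U`, and for `‖v‖ < r₀`
`‖f(y₀+Pv) - f(y₀)‖ ≤ (11/10)‖v‖` (differentiability) and `σ(y₀+Pv) ≥ (9/10)σ(y₀)` (continuity). For
`ε < r₀` the set `E = symm {y₀ + Pv : ‖v‖ < (10/11) ε}` is open (homeomorphism), contained in `U` and in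
the ball, and `μ(E) = Lam (1_E) = ∑_i ∫_T χ_i 1_E σ` (MU) `= ∑_i ∫_{T_q} χ_i 1_E σ_q` (V4 for
`g = ofReal χ_i 1_E`, supported in both sources) `= ∫_{T_q} 1_E σ_q` (`∑ χ_i = 1`)
`≥ (9/10) σ(y₀) |det P| π (10/11)² ε² ≥ ε²` (volume of the image of a disc under a linear map:
`Measure.addHaar_image_linearMap`, `EuclideanSpace.volume_ball_fin_two`; `π·0.9·100/121 > 2`). -/
def StSB : Prop := ∀ (N : ℕ) (M : Type) [TopologicalSpace M] [T2Space M] [CompactSpace M]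
    [MeasurableSpace M] [BorelSpace M] [ChartedSpace (EE 2) M] [IsManifold (𝓡 2) ∞ M]
    (F : M → ℝ → EE N) (c : ℕ → M) (χ : ℕ → M → ℝ), Setup 2 F c χ → ∀ t < 0, ∀ q : M,
    ∀ U ∈ 𝓝 q, ∀ᶠ ε in 𝓝[>] (0 : ℝ),
      ENNReal.ofReal (ε ^ 2) ≤ muM 2 F c χ t (U ∩ {p | ‖F p t - F q t‖ ≤ ε})

/-- MR (hMU)(hFV)(hPR)(hSB)(hI4). Representation, `n = 2`: `h(q)/2 ≤ ∫ (k + |H| h)/|F - F q|`.

Proof. `y = F q t`, `ρ = ‖F p t - y‖`, `ζ(s) = 1/(s+ε²)` (for `s ≥ 0`; use a `C¹` function of `s ∈ ℝ`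
equal to it for `s ≥ 0`, e.g. `1/(s+ε²)` for `s ≥ 0` continued by its tangent line, or
`ζ s = 1/(|s|..)`: simplest `ζ s = (s + ε²)⁻¹` is `C¹` near `s ≥ 0` only, so extend linearly for `s < 0`).
`X = h ζ(ρ²)(F - y)`. PR: `dvg X = h (2ζ + 2ζ' r) + ζ ⟨gdM h, F - y⟩` and
`2ζ + 2ζ' r = 2/(ρ²+ε²) - 2r/(ρ²+ε²)² ≥ 2ε²/(ρ²+ε²)²`. FV:
`∫ h 2ε²/(ρ²+ε²)² ≤ ∫ (‖gdM h‖ √r + ‖H‖ ρ h) ζ ≤ ∫ (k + ‖H‖h) ρ/(ρ²+ε²) ≤ ∫⁻ (k + ‖H‖ h)/ρ` (Lean: both
are `0` if `ρ = 0`). Lower bound: let `0 < η < h q` (if `h q = 0` nothing to prove), `U = {h > h q - η}`;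
on `U ∩ {ρ ≤ ε}` the left integrand is `≥ (h q - η)/(2ε²)`, so by SB the left side is `≥ (h q - η)/2` for
small `ε`. Let `η → 0`. -/
def StMR : Prop := ∀ (N : ℕ) (M : Type) [TopologicalSpace M] [T2Space M] [CompactSpace M]
    [MeasurableSpace M] [BorelSpace M] [ChartedSpace (EE 2) M] [IsManifold (𝓡 2) ∞ M]
    (F : M → ℝ → EE N) (c : ℕ → M) (χ : ℕ → M → ℝ), Setup 2 F c χ → ∀ t < 0,
    ∀ h k : M → ℝ, ContMDiff (𝓡 2) 𝓘(ℝ, ℝ) 1 h → Continuous k → (∀ q, 0 ≤ h q) →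
    (∀ q, ‖gdM 2 F t h q‖ ≤ k q) → ∀ q : M,
      ENNReal.ofReal (h q / 2) ≤ ∫⁻ p, ENNReal.ofReal
        ((k p + ‖HH (n := 2) F p t‖ * h p) / ‖F p t - F q t‖) ∂muM 2 F c χ t

/-- MH (hMU)(hFV)(hPR)(hI4). Hardy type inequality, `n = 2`, any centre `y`.

Proof. `X = h ζ(ρ²)(F - y)`, `ζ(s) = (s+ε²)^(-1/2)` for `s ≥ 0` (`C¹` extension to `s < 0` as in MR).
`2ζ + 2ζ' r = 2(ρ²+ε²)^(-1/2) - r (ρ²+ε²)^(-3/2) ≥ (ρ²+ε²)^(-1/2)` (`r ≤ ρ²`). FV:
`∫ h (ρ²+ε²)^(-1/2) ≤ ∫ (‖gdM h‖ √r + ‖H‖ρ h) ζ ≤ ∫ (k + ‖H‖ h)`. Let `ε = 1/(j+1) → 0`: monotone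
convergence or Fatou for lower integrals (`h/ρ ≤ liminf`, with `h/0 = 0`). -/
def StMH : Prop := ∀ (N : ℕ) (M : Type) [TopologicalSpace M] [T2Space M] [CompactSpace M]
    [MeasurableSpace M] [BorelSpace M] [ChartedSpace (EE 2) M] [IsManifold (𝓡 2) ∞ M]
    (F : M → ℝ → EE N) (c : ℕ → M) (χ : ℕ → M → ℝ), Setup 2 F c χ → ∀ t < 0,
    ∀ h k : M → ℝ, ContMDiff (𝓡 2) 𝓘(ℝ, ℝ) 1 h → Continuous k → (∀ q, 0 ≤ h q) →
    (∀ q, ‖gdM 2 F t h q‖ ≤ k q) → ∀ y : EE N,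
      ∫⁻ p, ENNReal.ofReal (h p / ‖F p t - y‖) ∂muM 2 F c χ t
        ≤ ENNReal.ofReal (∫ p, (k p + ‖HH (n := 2) F p t‖ * h p) ∂muM 2 F c χ t)

/-- MS (hMU)(hMR)(hMH)(hI4). Michael-Simon inequality for closed surfaces.

Proof. `a = k + ‖H‖h ≥ 0` continuous. `∫⁻ ofReal (h²/2) = ∫⁻ ofReal h · ofReal(h/2) ≤
∫⁻_q ofReal (h q) ∫⁻_p ofReal (a p/ρ(p,q))` (MR) `= ∫⁻_p ofReal (a p) ∫⁻_q ofReal (h q/ρ(p,q))` (Tonelli,
`lintegral_lintegral_swap`; the kernel `(p,q) ↦ ‖F p t - F q t‖⁻¹` is measurable: continuous functions on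
`M × M`, second countable; finite measure by MU) `≤ ∫⁻_p ofReal (a p) · ofReal(∫ a) = ofReal ((∫ a)²)`
(MH with `y = F p t`). Convert: `h`, `a` continuous on a compact space. -/
def StMS : Prop := ∀ (N : ℕ) (M : Type) [TopologicalSpace M] [T2Space M] [CompactSpace M]
    [SecondCountableTopology M] [MeasurableSpace M] [BorelSpace M] [ChartedSpace (EE 2) M]
    [IsManifold (𝓡 2) ∞ M]
    (F : M → ℝ → EE N) (c : ℕ → M) (χ : ℕ → M → ℝ), Setup 2 F c χ → ∀ t < 0,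
    ∀ h k : M → ℝ, ContMDiff (𝓡 2) 𝓘(ℝ, ℝ) 1 h → Continuous k → (∀ q, 0 ≤ h q) →
    (∀ q, ‖gdM 2 F t h q‖ ≤ k q) →
      ∫ q, h q ^ 2 ∂muM 2 F c χ t
        ≤ 2 * (∫ q, (k q + ‖HH (n := 2) F q t‖ * h q) ∂muM 2 F c χ t) ^ 2

end Helper32.CL
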