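import Mathlib
import Pool.Agent.Helper32.CL.Defs
import Pool.Agent.Helper35.PI2.St

/-!
Module statements of project CL (MP_b2fa09_gt), part 2: jets, the master divergence theorem.

For each `StX` the module proves `theorem hX : StX`, taking the listed statements (of this
project, of project PI `Helper35/PI/St*.lean` or PI2 `Helper35/PI2/St.lean`, all of these proved)
as hypotheses in the listed order; others of PI, PI2 may be used too (say so when you post).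
Complete proofs are in the docstrings. All formulas were checked numerically.
-/

set_option autoImplicit false

namespace Helper32.CL

open Helper35.PI Helper35.PI2
open scoped ContDiff Manifold Topology ENNReal BigOperators
open MeasureTheory Set Filter

/-- CR. Chain rule for the jets.

Proof. Near `z` (`p` is `C²` near `z`): `fderiv (φ∘p) z' = (fderiv φ (p z')).comp (fderiv p z')`, so
`jg (φ∘p) z' k = fderiv φ (p z') (jg p z' k)` and the same for `jt`. Differentiate once more in the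
direction `e_k` at `z`: `jgg (φ∘p) z k k = fderiv φ (p z) (jgg p z k k) +
(fderiv (fderiv φ) (p z) (jg p z k)) (jg p z k)`, and `(fderiv (fderiv φ) x w) w =
fderiv (fun y => fderiv φ y w) x w`. Sum over `k`. -/
def StCR : Prop := ∀ (n : ℕ) (V : Type) [NormedAddCommGroup V] [NormedSpace ℝ V]
    (p : EE n × ℝ → V) (φ : V → ℝ) (z : EE n × ℝ), ContDiffAt ℝ 2 p z → ContDiff ℝ 2 φ →
    (∀ k, jg (fun z => φ (p z)) z k = fderiv ℝ φ (p z) (jg p z k)) ∧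
    jt (fun z => φ (p z)) z = fderiv ℝ φ (p z) (jt p z) ∧
    jh (fun z => φ (p z)) z = fderiv ℝ φ (p z) (jh p z)
      - ∑ k, fderiv ℝ (fun y => fderiv ℝ φ y (jg p z k)) (p z) (jg p z k)

/-- WJ (hNJ)(hGH)(hNR)(hG0)(hG1)(hG2)(hSM)(hJA)(hJB). Jets of `W = F^⊥ + l H` on the graph.

Proof. `f = grf = x₀ + L x + u`, `f_k = L e_k + u_k`, `x₀ = ν + Σ v_k L e_k`, `ν ⟂ L`. Put
`V z = ν + u z - Σ_k (z.1 k + v_k) • jg u z k`; it is orthogonal to `L` near `(0,t₀)` (`perp`, G2) and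
`f - V = Σ_k (x_k + v_k) f_k` is tangent, so `nrm f (f x) = nrm (V z)` (NR). Jets of `V` at `(0,t₀)`
(`u = 0`, `u_k = 0`): `V = ν`, `jg V m = -Σ v_k A_mk`, `jgg V i j = -A_ij - Σ_k v_k T_ijk`,
`jt V = Hv A - Σ_k v_k et T k` (`jt u = Σ G_ij u_ij`, so `jt u = Hv A`, `jg (jt u) k = et T k`, as
`∂G = 0`). NJ for `V`; GH for `Hf`; also `Hf = nrm (jt u)` near `(0,t₀)` (see GH), so NJ for `jt u` gives
`⟨w, jt Hf⟩ = ⟨w, jt (jt u)⟩ = Σ_i ⟨w, ut i i⟩` for `w ⟂ L` (`jt G = 0`). With `W = nrm V + l Hf`: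
`W = Wl l A ν`, `jg W m = DW m - Σ_a ⟨W, A_am⟩ L e_a`, and for `w ⟂ L`, adding up (the terms
`Σ v_k et T k` cancel, `Σ_k jgg Hf k k` against `jt Hf`):
`⟨w, jh W⟩ = 2⟨w, Hv A⟩ + 2 Σ_ij ⟨W, A_ij⟩⟨w, A_ij⟩`.
So `jg ‖W‖² k = 2⟨W, DW k⟩` and (JB) `jh ‖W‖² = 2⟨W, jh W⟩ - 2 Σ_k ‖jg W k‖²`,
`‖jg W k‖² = ‖DW k‖² + Σ_a ⟨W, A_ak⟩²` (`DW k ⟂ L` by G1). -/
def StWJ : Prop := ∀ (n N : ℕ) (x₀ : EE N) (L : EE n →ₗᵢ[ℝ] EE N) (u : EE n × ℝ → EE N)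
    (t₀ : ℝ), GraphSol x₀ L u t₀ →
    ∀ (A : Fin n → Fin n → EE N) (T : Fin n → Fin n → Fin n → EE N) (ν : EE N)
      (v : Fin n → ℝ), IsJet x₀ L u t₀ A T ν v → ∀ l : ℝ,
    ContDiffAt ℝ ∞ (Wlf l x₀ L u) (0, t₀) ∧ Wlf l x₀ L u (0, t₀) = Wl l A ν ∧
    (∀ k, jg (fun z => ‖Wlf l x₀ L u z‖ ^ 2) (0, t₀) k = gW l A T ν v k) ∧
    jh (fun z => ‖Wlf l x₀ L u z‖ ^ 2) (0, t₀) = hW l A T ν v

/-- UJ (hGH)(hG0)(hG1)(hG2)(hSM)(hJB). First derivatives of `U` on the graph.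

Proof. `Uf = Σ G_ik G_jm ⟨Af k m, Hf⟩ Af i j` near `(0,t₀)`, `G = 1`, `jg G = 0` there (G0). GH:
`Af i j = A_ij`, `jg (Af i j) m = T_mij - Σ_a ⟨A_ij,A_am⟩ L e_a`, `Hf = Hv A`, `jg Hf m = et T m -
Σ_a ⟨H,A_am⟩ L e_a`. As `A, H ⟂ L` (G1), `jg ⟨Af i j, Hf⟩ m = gz A T i j m`. So
`jg Uf m = Σ (gz_ijm A_ij + z_ij T_mij) - Σ_a Σ_ij z_ij ⟨A_ij,A_am⟩ L e_a`. -/
def StUJ : Prop := ∀ (n N : ℕ) (x₀ : EE N) (L : EE n →ₗᵢ[ℝ] EE N) (u : EE n × ℝ → EE N)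
    (t₀ : ℝ), GraphSol x₀ L u t₀ →
    ∀ (A : Fin n → Fin n → EE N) (T : Fin n → Fin n → Fin n → EE N),
    A = jgg u (0, t₀) → T = jggg u (0, t₀) →
    ContDiffAt ℝ ∞ (Uf x₀ L u) (0, t₀) ∧ Uf x₀ L u (0, t₀) = Uv A ∧
    ∀ k, jg (Uf x₀ L u) (0, t₀) k
      = dU A T k - ∑ a, (inner ℝ (Uv A) (A a k) : ℝ) • L (ee a)

/-- SS (hSM)(hFR)(hNR). Smoothness in space and time; compare `Helper16/PI2/M_IS.lean`.

Proof. SM at every point near `z₀` (the hypotheses are open): `gram⁻¹, sff, mcv, nsq, zsq`, `dv1` are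
smooth in `z`, hence `nrm f (f x)` (a finite sum), `wvl`, `uvf`, `i3`, `i4`, `nvf`; `z ↦ φ (i4 ..)` is smooth and
`fderiv (fun y => φ (i4 l f y)) x (ee k)` of the slice is `jg` of this function, smooth. Then `wc`, `wf`.
`⟨wf, f_k⟩ = Σ G_jl w_j g_lk = w_k`; `mcv f x` and `sff` are orthogonal to the `f_l` (NR). The formula for
`‖wvl‖²` with `l`: `wvl l = wvl 0 + l mcv`, `⟨nrm f (f x), mcv⟩ = ⟨f x, mcv⟩` (NR). The divergence `dvc` is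
a finite sum of products of `gram⁻¹`, `jg` of `wf` and `dv1`. -/
def StSS : Prop := ∀ (n N : ℕ) (f : EE n × ℝ → EE N) (z₀ : EE n × ℝ), ContDiffAt ℝ ∞ f z₀ →
    LI (fun y => f (y, z₀.2)) z₀.1 → ∀ (κ l : ℝ) (c : Co), c.Smooth →
    ContDiffAt ℝ ∞ (fun z => i4 l (fun y => f (y, z.2)) z.1) z₀ ∧
    ContDiffAt ℝ ∞ (fun z => wvl l (fun y => f (y, z.2)) z.1) z₀ ∧
    ContDiffAt ℝ ∞ (fun z => uvf (fun y => f (y, z.2)) z.1) z₀ ∧
    (∀ k, ContDiffAt ℝ ∞ (fun z => wc κ l c (fun y => f (y, z.2)) z.1 k) z₀) ∧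
    ContDiffAt ℝ ∞ (fun z => wf κ l c (fun y => f (y, z.2)) z.1) z₀ ∧
    ContDiffAt ℝ ∞ (fun z => dvc (fun y => f (y, z.2)) (wf κ l c (fun y => f (y, z.2))) z.1)
      z₀ ∧
    (∀ k, (inner ℝ (wf κ l c (fun y => f (y, z₀.2)) z₀.1) (dv1 (fun y => f (y, z₀.2)) z₀.1 k)
      : ℝ) = wc κ l c (fun y => f (y, z₀.2)) z₀.1 k) ∧
    wf κ l c (fun y => f (y, z₀.2)) z₀.1
      ∈ Submodule.span ℝ (range fun i => dv1 (fun y => f (y, z₀.2)) z₀.1 i) ∧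
    (inner ℝ (mcv (fun y => f (y, z₀.2)) z₀.1) (wf κ l c (fun y => f (y, z₀.2)) z₀.1) : ℝ)
      = 0

/-- IV (hI1)(hFR)(hNR)(hSM)(hSS). Invariance under reparametrisation; compare
`Helper80/PI2/M_IA.lean`, `Helper45/PI2/M_IB.lean` and, for `uvf`, module TF of project SH
(`Helper23/SH/All.lean`).

Proof. `J_ka = ⟨e_a, Dφ e_k⟩`; near `x`: `h_k = Σ_a J_ka f_a(φ)`, `gram h = J gram f(φ) Jᵀ`,
`sff h k l = Σ J_ka J_lb sff f a b (φ)`, `mcv h = mcv f∘φ`, `nsq`, `zsq` (I1), the normal projection depends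
only on the tangent space (NR), so `wvl l h = wvl l f∘φ`. `uvf`: with
`(gram h)⁻¹ = J⁻ᵀ (gram f)⁻¹ J⁻¹` the sum is unchanged. So `i3, i4, nvf` agree near `x`, the derivative of
`φ(i4 ..)` transforms with `J`, and `⟨nvf, sff h k a⟩ (gram h)⁻¹_am ⟨h, h_m⟩` contracts to
`Σ_b J_kb (..)_b`. So `wc h x k = Σ_a J_ka wc f (φ x) a`, hence `wf h = wf f∘φ` (near `x`), and `dvc` as in
`M_IB`. -/
def StIV : Prop := ∀ (n N : ℕ) (f h : EE n → EE N) (φ : EE n → EE n) (x : EE n),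
    ContDiffAt ℝ ∞ f (φ x) → ContDiffAt ℝ ∞ φ x → h =ᶠ[𝓝 x] (fun y => f (φ y)) → LI h x →
    ∀ (κ l : ℝ) (c : Co), c.Smooth →
    i4 l h x = i4 l f (φ x) ∧ wvl l h x = wvl l f (φ x) ∧ uvf h x = uvf f (φ x) ∧
    (∀ k, wc κ l c h x k
      = ∑ a, (inner ℝ (ee a) (fderiv ℝ φ x (ee k)) : ℝ) * wc κ l c f (φ x) a) ∧
    wf κ l c h x = wf κ l c f (φ x) ∧
    dvc h (wf κ l c h) x = dvc f (wf κ l c f) (φ x)

/-- ML (hSS)(hIV)(hI2)(hI3)(hI4). The quantities on `M_t`; compare `Helper12/PI2/M_MA.lean`.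

Proof. For `q'` in the source of the chart at `q`, `loc F q' t` near `chart q' q'` is
`loc F q t ∘ (transition)`, so by IV the quantities at `q'` are those of `loc F q t` at `chart q q'`
(`HH, AA, ZF` by I3). Smoothness in `(q,t)` from SS and I2 (`f(y,s) = F (symm y) s`), which gives
`ContMDiff` of the field, continuity (`CST`) and the derivatives in time (`deriv` of the smooth function
`s ↦ φ (i4 (f(·,s)) y)`, continuous in `(y,s)`). `dvg` is by definition the sum `dvc` of `y ↦ WFd (symm y)`,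
which equals `wf (loc F q t)` near `chart q q`. Last claim: `κ = 0` and `c = cφ φ` (`a_i = 0`,
`exp 0 = 1`): `wc` is the derivative of `y ↦ φ (i4 l (loc F q t) y)`, which near `chart q q` is
`φ (i4F n l F (symm y) t)`. -/
def StML : Prop := ∀ (n N : ℕ) (M : Type) [TopologicalSpace M] [ChartedSpace (EE n) M]
    [IsManifold (𝓡 n) ∞ M] (F : M → ℝ → EE N), IsMCF (n := n) F →
    ∀ (κ l : ℝ) (c : Co), c.Smooth →
    (∀ t < 0, ContMDiff (𝓡 n) 𝓘(ℝ, EE N) 1 (WFd n κ l c F t) ∧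
      (∀ q, (inner ℝ (HH (n := n) F q t) (WFd n κ l c F t q) : ℝ) = 0) ∧
      (∀ q, WFd n κ l c F t q ∈ TS (n := n) F q t) ∧
      ContMDiff (𝓡 n) 𝓘(ℝ, ℝ) 1 (fun q => c.φ (i4F n l F q t)) ∧
      ∀ q, WFd n 0 l (cφ c.φ) F t q = gdM n F t (fun q => c.φ (i4F n l F q t)) q) ∧
    CST (fun q t => dvg (n := n) F (WFd n κ l c F t) q t) ∧
    CST (fun q t => i4F n l F q t) ∧ CST (fun q t => wvF n l F q t) ∧
    CST (fun q t => c.φ (i4F n l F q t)) ∧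
    CST (fun q t => deriv (fun s => c.φ (i4F n l F q s)) t) ∧
    (∀ q, ∀ t < 0, HasDerivAt (fun s => c.φ (i4F n l F q s))
      (deriv (fun s => c.φ (i4F n l F q s)) t) t) ∧
    ∀ q, ∀ t < 0, wvF n l F q t = wvF n 0 F q t + l • HH (n := n) F q t ∧
      (inner ℝ (wvF n 0 F q t) (HH (n := n) F q t) : ℝ)
        = inner ℝ (F q t) (HH (n := n) F q t) ∧
      ‖wvF n 0 F q t‖ ≤ ‖F q t‖

/-- GC (hCR)(hWJ)(hUJ)(hSS)(hG0)(hG1)(hG2)(hG7)(hG8)(hG9)(hGH)(hSM)(hJA)(hJB). The field at the centre of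
a graph; compare `Helper92/PI2/M_GV.lean`.

Proof. `p z = i4f l .. z = (Xf, Yf, Zf, ‖Wlf‖²)`; its value, `jg`, `jh` at `(0,t₀)` are `J4`, `g4`, `h4`
(G7, G8, G9, WJ). For `x` near `0` (time `t₀`), with `E = exp(-κ‖f‖²/2)`, `f_m = L e_m + u_m`:
`wc x k = E (∂_k φ(p) + κ (a₂ ⟨f,f_k⟩ + Σ_am G_am ⟨N, A_ka⟩⟨f, f_m⟩))` and
`wf x = Σ_km G_km w_k (L e_m + u_m)`. At `0`: `G = 1`, `∂G = 0` (G0), `u_m = 0`, `f = x₀`,
`⟨f, f_m⟩ = v_m`, so `w_k = E₀ (gph k + Va k)` (CR). `dvc (wf) 0 = Σ_i ∂_i w_i` (as in `M_GV`: `∂G = 0`,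
`⟨u_im, L e_i⟩ = 0`). Derivatives at `0`: `∂_k E = -κ v_k E₀`; `Σ_k ∂_k∂_k φ(p) = jt φ(p) - jh φ(p)`, `jh` by
CR; `∂_k ⟨f, f_m⟩ = δ_km + ⟨x₀, A_km⟩ = δ_km + ⟨ν, A_km⟩` (`A ⟂ L`); `N = a₁(J3) Hf + a₃(J3) Uf`,
`∂_k N = dNa k` + part along `L` (GH, UJ, chain rule for `a_i`), `A_ka` and `∂_k A_ka` (`= T_kka` + part
along `L`, GH) : `Σ_k ∂_k⟨N, A_ka⟩ = Σ_k ⟨dNa k, A_ka⟩ + ⟨N, et T a⟩ + (L-parts)`; the L-parts pair with
vectors orthogonal to `L` (`A`, `N` at the centre) and vanish. `Σ_k ∂_k a₂ = Σ fderiv a₂ (J3) (g3 k)`. -/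
def StGC : Prop := ∀ (n N : ℕ) (x₀ : EE N) (L : EE n →ₗᵢ[ℝ] EE N) (u : EE n × ℝ → EE N)
    (t₀ : ℝ), GraphSol x₀ L u t₀ →
    ∀ (A : Fin n → Fin n → EE N) (T : Fin n → Fin n → Fin n → EE N) (ν : EE N)
      (v : Fin n → ℝ), IsJet x₀ L u t₀ A T ν v → ∀ (κ l : ℝ) (c : Co), c.Smooth →
    wf κ l c (grf x₀ L u t₀) 0
      = Real.exp (-(κ * ‖x₀‖ ^ 2 / 2)) • ∑ k, (gph l c A T ν v k + Va κ c A v k) • L (ee k) ∧
    dvc (grf x₀ L u t₀) (wf κ l c (grf x₀ L u t₀)) 0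
      = Real.exp (-(κ * ‖x₀‖ ^ 2 / 2)) *
        (jt (fun z => c.φ (i4f l x₀ L u z)) (0, t₀) + dvA κ l c A T ν v)

/-- MD (hGC)(hML)(hMG: only as a model)(hGV)(hMA)(hMT)(hIB)(hIV)(hC1)(hC2)(hC3)(hSS)(hSM)(hI1)(hI2)(hI3)
(hG0)(hG1)(hG7)(hG8)(hG9)(hGH)(hWJ)(hNR). The master theorem: jets at every point of the flow; compare
`Helper15/PI2/M_MG.lean`.

Proof. As `MG`: `f(y,s) = F (symm y) s` in the chart at `q`, `y₀ = chart q`, `L` from C1, `ψ` from C2,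
`u` from C3, a `GraphSol` with `x₀ = F q t`, `grf s = f(·,s)∘ψ(·,s)` near `0`, for `s` near `t` (C3).
`A, T, ν, v` from `IsJet`. Values: G7, G8, G9, GH, WJ at `(0,t)` and I1/IV (`φ = ψ(·,t)`, `x = 0`);
`‖F‖² = ‖ν‖² + Σ v²` and `⟨F,H⟩ = ⟨ν,H⟩` since `ν, H ⟂ L`, `L` isometry. `HasDerivAt` of `thF` and `VF`: exactly
as in `MG` (the same `A, T`, all `μ`). The field: GC, IV, ML (`dvg = dvc`), norm: `L` isometry. The time
derivative: `s ↦ c.φ (i4F n l F q s)` is `s ↦ Φ(y₀,s)`, `Φ(y,s) = c.φ (i4 l (f(·,s)) y)` smooth (SS), and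
`jt` of `Φ(ψ z, z.2) = c.φ (i4f ..)` (IV at points near) is `jt Φ (y₀,t)` (MT). -/
def StMD : Prop := ∀ (n N : ℕ) (M : Type) [TopologicalSpace M] [ChartedSpace (EE n) M]
    [IsManifold (𝓡 n) ∞ M] (F : M → ℝ → EE N), IsMCF (n := n) F → ∀ (q : M) (t : ℝ), t < 0 →
    ∃ (A : Fin n → Fin n → EE N) (T : Fin n → Fin n → Fin n → EE N) (ν : EE N)
      (v : Fin n → ℝ), SymV A ∧ Sym3V T ∧
      AA (n := n) F q t = XX A ∧ HH (n := n) F q t = Hv A ∧ ZF (n := n) F q t = ZZ A ∧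
      (∀ l, wvF n l F q t = Wl l A ν) ∧ ‖F q t‖ ^ 2 = ‖ν‖ ^ 2 + ∑ k, v k ^ 2 ∧
      (inner ℝ (F q t) (HH (n := n) F q t) : ℝ) = inner ℝ ν (Hv A) ∧
      (∀ μ, ‖VF n μ F t q‖ ^ 2 = ∑ k, vk μ A T k ^ 2 ∧
        HasDerivAt (fun s => thF n F q s)
          (dvg (n := n) F (VF n μ F t) q t + 2 * (1 + μ) * hX A T - hY A T
            + 4 * μ * eq2 T - 4 * μ * AAH A) t) ∧
      ∀ (κ l : ℝ) (c : Co), c.Smooth →
        ‖WFd n κ l c F t q‖ ^ 2 = Real.exp (-(κ * ‖F q t‖ ^ 2 / 2)) ^ 2 *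
          ∑ k, (gph l c A T ν v k + Va κ c A v k) ^ 2 ∧
        dvg (n := n) F (WFd n κ l c F t) q t
          = Real.exp (-(κ * ‖F q t‖ ^ 2 / 2)) *
            (deriv (fun s => c.φ (i4F n l F q s)) t + dvA κ l c A T ν v)

end Helper32.CL
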