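import Mathlib
import Pool.Agent.Helper32.CL.St4
import Pool.Agent.Helper35.CL.StA

/-!
Module statements of project CL (MP_b2fa09_gt), part 3: time estimates and assembly.

For each `StX` the module proves `theorem hX : StX`, taking the listed statements (of this
project: `CL/St1`, `St2`, `St4`, `Helper35/CL/StA`; of project PI `Helper35/PI/St*.lean` or PI2
`Helper35/PI2/St.lean`, the last two all proved) as hypotheses in the listed order; others of PI,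
PI2 may be used too (say so when you post). Complete proofs are in the docstrings.

Notation: `τ = -t`, `∫ g = ∫ q, g q t ∂μ_t`, `μ_t = muM 2 F c χ t`, `X = |A|²`, `Y = |H|²`,
`θ = 2X - Y = thF 2 F q t`, `W = wvF 2 (-2t) F q t` (`= F^⊥ + 2τH`), `w = |W|² = wF F q t`.
-/

set_option autoImplicit false

namespace Helper32.CL

open Helper35.PI Helper35.PI2 Pool.Agent.Helper35.CL
open scoped ContDiff Manifold Topology ENNReal BigOperators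
open MeasureTheory Set Filter

section Defs3

variable {N : ℕ} {M : Type} [TopologicalSpace M] [ChartedSpace (EE 2) M]

/-- `w = |W|²`, `W = F^⊥ - 2t H` -/
noncomputable def wF (F : M → ℝ → EE N) (q : M) (t : ℝ) : ℝ := ‖wvF 2 (-2 * t) F q t‖ ^ 2
/-- `g₁ = Σ|∇_k W|² + X w - Σ⟨A_ij,W⟩²` (see GA) -/
noncomputable def g1F (F : M → ℝ → EE N) (q : M) (t : ℝ) : ℝ :=
  1 / 2 * (2 * (AA (n := 2) F q t * wF F q t)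
    + 4 * inner ℝ (HH (n := 2) F q t) (wvF 2 (-2 * t) F q t)
    - (deriv (fun s => ‖wvF 2 (-2 * t) F q s‖ ^ 2) t
      - dvg (n := 2) F (WFd 2 0 (-2 * t) (cφ (fun p => p.2.2.2)) F t) q t))
/-- `g₂ = 5X² - ½(∂_t - Δ)X ≥ |∇A|²` (see GB) -/
noncomputable def g2F (F : M → ℝ → EE N) (q : M) (t : ℝ) : ℝ :=
  5 * AA (n := 2) F q t ^ 2
    - 1 / 2 * (deriv (fun s => AA (n := 2) F q s) t
      - dvg (n := 2) F (WFd 2 0 0 (cφ (fun p => p.1)) F t) q t)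
/-- `g₃ = Yθ - (∂_tθ - dvg V)`, `V = VF 2 (1/2) F t` (see SG) -/
noncomputable def g3F (F : M → ℝ → EE N) (q : M) (t : ℝ) : ℝ :=
  ‖HH (n := 2) F q t‖ ^ 2 * thF 2 F q t
    - (deriv (fun s => thF 2 F q s) t - dvg (n := 2) F (VF 2 (1 / 2) F t) q t)
/-- `ρ = Y⁴/(Y⁴+δ⁴)` -/
noncomputable def rhF (δ : ℝ) (F : M → ℝ → EE N) (q : M) (t : ℝ) : ℝ :=
  (‖HH (n := 2) F q t‖ ^ 2) ^ 4 / ((‖HH (n := 2) F q t‖ ^ 2) ^ 4 + δ ^ 4)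
/-- `φ_δ = fD δ (X,Y,Z)` -/
noncomputable def phF (δ : ℝ) (F : M → ℝ → EE N) (q : M) (t : ℝ) : ℝ :=
  fD δ (AA (n := 2) F q t, ‖HH (n := 2) F q t‖ ^ 2, ZF (n := 2) F q t)
/-- `G = exp(-κ|F|²/2)`, `κ = 1/(-2t)` -/
noncomputable def ggF (F : M → ℝ → EE N) (q : M) (t : ℝ) : ℝ :=
  Real.exp (-((-2 * t)⁻¹ * ‖F q t‖ ^ 2 / 2))
/-- `G·I_δ`, the integrand of the certificate -/
noncomputable def IgF (δ : ℝ) (F : M → ℝ → EE N) (q : M) (t : ℝ) : ℝ :=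
  dvg (n := 2) F (WFd 2 (-2 * t)⁻¹ (-2 * t) (cD δ) F t) q t
    - ggF F q t * deriv (fun s => phF δ F q s) t
    + ggF F q t * (phF δ F q t * (((-2 * t)⁻¹) ^ 2 * ‖F q t‖ ^ 2
      + (-2 * t)⁻¹ * inner ℝ (F q t) (HH (n := 2) F q t) + ‖HH (n := 2) F q t‖ ^ 2))

end Defs3

/-! ### The field `W` -/

/-- GA (hMD : StMD)(hML : StML)(hSQ : StSQ)(hCN : StCN). Pointwise facts on `g₁`, at one time.

Proof. `l = -2t` fixed, `c = cφ (fun p => p.2.2.2)` (linear, smooth), `κ = 0`. Take the jets from MD.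
`c.φ (i4F 2 l F q s) = ‖wvF 2 l F q s‖²`. MD (field, `κ = 0`, `exp 0 = 1`, `a_i = 0`, `φ` linear so
`fderiv φ y h = h.2.2.2` and the second derivatives vanish): `dvg (WFd 2 0 l c F t) q = ∂_s|W|² + dvA`,
`dvA = -hph = -hW l A T ν v`, so `∂_s|W|² - dvg = hW l A T ν v =
-2Σ‖DW‖² + 2Σ⟨A_ij,W⟩² + 4⟨H,W⟩` and `g1F = Σ_k‖DW l A T v k‖² + X w - Σ⟨A_ij,W⟩²`. By SQ
`Σ⟨A_ij,W⟩² ≤ X w`. `gdM (w) = WFd 2 0 l c F t` (ML last claim of the first part), and by MD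
`‖WFd‖² = Σ gph² = Σ (2⟨W,DW_k⟩)² ≤ 4 w Σ‖DW_k‖² ≤ 4 w g1F`. Continuity in `q` at the fixed time `t`: ML
(fixed `l`), CN. -/
def StGA : Prop := ∀ (N : ℕ) (M : Type) [TopologicalSpace M] [ChartedSpace (EE 2) M]
    [IsManifold (𝓡 2) ∞ M] (F : M → ℝ → EE N), IsMCF (n := 2) F → ∀ t < 0,
    Continuous (fun q => g1F F q t) ∧ Continuous (fun q => wF F q t) ∧
    ContMDiff (𝓡 2) 𝓘(ℝ, ℝ) 1 (fun q => wF F q t) ∧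
    (∀ q, 0 ≤ g1F F q t ∧
      ‖gdM 2 F t (fun q => wF F q t) q‖ ^ 2 ≤ 4 * (wF F q t * g1F F q t)) ∧
    ContMDiff (𝓡 2) 𝓘(ℝ, EE N) 1 (WFd 2 0 (-2 * t) (cφ (fun p => p.2.2.2)) F t) ∧
    ∀ q, (inner ℝ (HH (n := 2) F q t) (WFd 2 0 (-2 * t) (cφ (fun p => p.2.2.2)) F t q) : ℝ) = 0

/-- GJ (hMD : StMD)(hSQ : StSQ). The jets with the estimate `Σ|DE_k|² ≤ g₁/(4t²)` etc.; one point.

Proof. Take `A, T, ν, v` from MD. `g1F` as in GA: `Σ‖DW‖² ≤ g1F` (SQ). `l = -2t > 0`, `κ = l⁻¹`: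
`DW l A T v k = l • DE κ A T v k`, `Wl l A ν = l • (Hv A + κ • ν)`; so `Σ‖DE‖² = Σ‖DW‖²/l²`,
`‖H + κν‖² = w/l²`. `g2F`: MD with `c = cφ (fun p => p.1)`, `κ = l = 0`: `∂_tX - dvg = hX A T` and SQ:
`tq T ≤ 5X² - hX/2 = g2F`. `κ²Σv² ≤ κ²‖F‖²`. Last: MD with `κ = l⁻¹`, `c = cD δ` (smooth by the AF part,
passed as a hypothesis): `dvg = G(∂_tφ_δ + dvA)`, `c.φ (i4F ..) = phF δ`, `‖F‖² = ‖ν‖² + Σv²`,
`⟨F,H⟩ = ⟨ν,H⟩`, so `IgF δ = G · Ig κ l δ A T ν v`. -/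
def StGJ : Prop := (∀ δ : ℝ, 0 < δ → (cD δ).Smooth) →
    ∀ (N : ℕ) (M : Type) [TopologicalSpace M] [ChartedSpace (EE 2) M]
    [IsManifold (𝓡 2) ∞ M] (F : M → ℝ → EE N), IsMCF (n := 2) F → ∀ t < 0, ∀ q : M,
    ∃ (A : Fin 2 → Fin 2 → EE N) (T : Fin 2 → Fin 2 → Fin 2 → EE N) (ν : EE N)
      (v : Fin 2 → ℝ), SymV A ∧ Sym3V T ∧
      AA (n := 2) F q t = XX A ∧ HH (n := 2) F q t = Hv A ∧ ZF (n := 2) F q t = ZZ A ∧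
      (∑ k, ‖DE ((-2 * t)⁻¹) A T v k‖ ^ 2) ≤ g1F F q t / (4 * t ^ 2) ∧
      ‖Hv A + ((-2 * t)⁻¹) • ν‖ ^ 2 = wF F q t / (4 * t ^ 2) ∧
      tq T ≤ g2F F q t ∧
      ((-2 * t)⁻¹) ^ 2 * (∑ k, v k ^ 2) ≤ ‖F q t‖ ^ 2 / (4 * t ^ 2) ∧
      ∀ δ : ℝ, 0 < δ → IgF δ F q t = ggF F q t * Ig ((-2 * t)⁻¹) (-2 * t) δ A T ν v

/-- GB (hMD : StMD)(hML : StML)(hSQ : StSQ)(hCN : StCN). Continuity in space time.

Proof. `g2F`: ML with `l = 0`, `c = cφ (fun p => p.1)` (`dvg` and `deriv` are `CST`), CN; `0 ≤ tq T ≤ g2F` as in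
GJ. `phF δ`, its derivative: ML with `c = cD δ`. `rhF`, `ggF`: CN, the denominator is positive. -/
def StGB : Prop := (∀ δ : ℝ, 0 < δ → (cD δ).Smooth) →
    ∀ (N : ℕ) (M : Type) [TopologicalSpace M] [ChartedSpace (EE 2) M]
    [IsManifold (𝓡 2) ∞ M] (F : M → ℝ → EE N), IsMCF (n := 2) F →
    CST (fun q t => g2F F q t) ∧ (∀ q, ∀ t < 0, 0 ≤ g2F F q t) ∧
    CST (fun q t => ggF F q t) ∧ (∀ q, ∀ t < 0, 0 < ggF F q t ∧ ggF F q t ≤ 1) ∧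
    CST (fun q t => thF 2 F q t) ∧
    ∀ δ : ℝ, 0 < δ → CST (fun q t => rhF δ F q t) ∧ CST (fun q t => phF δ F q t) ∧
      CST (fun q t => deriv (fun s => phF δ F q s) t) ∧
      (∀ q, ∀ t < 0, HasDerivAt (fun s => phF δ F q s) (deriv (fun s => phF δ F q s) t) t) ∧
      ∀ q, ∀ t < 0, 0 ≤ rhF δ F q t ∧ rhF δ F q t ≤ 1

/-- PS (hAI : StAI)(hAF : StAF)(hGJ : StGJ). The main pointwise inequality on the flow.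

Proof. Jets from GJ, `AI` with `κ = (-2t)⁻¹`, `l = -2t`, `ρ = rhF δ F q t`; multiply by `G > 0`:
`G ρ(1-ρ)(tq + Y² + Yκ²Σv²) ≤ ρ(1-ρ)(g₂ + Y² + Y|F|²/(4t²))·G`, and `G ≤ 1` for the two error terms
(`ρ(1-ρ) ≥ 0`). -/
def StPS : Prop := ∀ c₀ : ℝ, c₀ < 5 / 6 → ∃ η C : ℝ, 0 < η ∧ 0 ≤ C ∧
    ∀ (N : ℕ) (M : Type) [TopologicalSpace M] [ChartedSpace (EE 2) M]
    [IsManifold (𝓡 2) ∞ M] (F : M → ℝ → EE N), IsMCF (n := 2) F → ∀ t < 0, ∀ q : M,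
    AA (n := 2) F q t ≤ c₀ * ‖HH (n := 2) F q t‖ ^ 2 → ∀ δ : ℝ, 0 < δ →
    η * (ggF F q t * (rhF δ F q t * (‖HH (n := 2) F q t‖ ^ 2 * thF 2 F q t)))
      - C * ((g1F F q t + ‖HH (n := 2) F q t‖ ^ 2 * wF F q t) / (4 * t ^ 2))
      - C * (rhF δ F q t * (1 - rhF δ F q t) * (g2F F q t + (‖HH (n := 2) F q t‖ ^ 2) ^ 2
        + ‖HH (n := 2) F q t‖ ^ 2 * (‖F q t‖ ^ 2 / (4 * t ^ 2))))
      ≤ IgF δ F q t

/-! ### Energy of `W` -/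

/-- EW (hMU : StMU)(hTD : StTD)(hFV : StFV)(hML : StML)(hGA : StGA)(hCN : StCN). The energy of `W`.

Proof. `wvF l = wvF 0 + l HH`, so `‖wvF l‖² = (1 - l²... )`: with `a = ‖wvF 0‖²`, `b = ‖wvF 1‖²`, `Y = ‖HH‖²`:
`‖wvF 0 + l HH‖² = a + l(b - a - Y) + l²Y` for all real `l` and all `(q,s)` (`2⟨wvF 0,HH⟩ = b - a - Y`).
`a, b, Y` are `CST` with `CST` time derivatives (ML with `c = cφ (fun p => p.2.2.2)`, `l = 0, 1`, and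
`c = cφ (fun p => p.2.1)`). So `g q t := wF F q t = a - 2t(b - a - Y) + 4t²Y` has the `CST` derivative
`g' q t = [∂_t a + l(∂_t b - ∂_t a - ∂_t Y) + l²∂_tY]_{l=-2t} - 2(b - a - Y) + 8tY`, where the bracket is
`deriv (fun s => ‖wvF 2 (-2t) F q s‖²) t` and the rest is `-4⟨HH, wvF 2 (-2t)⟩`
(`= -4(⟨wvF 0,HH⟩ - 2tY)`). TD: `d/dt ∫ w dμ_t = ∫ (g' - Y w) dμ_t`, continuous in `t` (TD first part). By the
definition of `g1F`: `g' = 2Xw - 2 g1F + dvg (WFd 2 0 (-2t) ..)`, and `∫ dvg = 0` (FV, GA). So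
`∫ (g' - Yw) = ∫ (θ w - 2 g1F)`; continuity in `t` of `∫ g1F = ½(∫ θw - ∫(g' - Yw))`. -/
def StEW : Prop := ∀ (N : ℕ) (M : Type) [TopologicalSpace M] [T2Space M]
    [CompactSpace M] [MeasurableSpace M] [BorelSpace M] [ChartedSpace (EE 2) M]
    [IsManifold (𝓡 2) ∞ M] (F : M → ℝ → EE N) (c : ℕ → M) (χ : ℕ → M → ℝ), Setup 2 F c χ →
    CST (fun q t => wF F q t) ∧
    ContinuousOn (fun t => ∫ q, g1F F q t ∂muM 2 F c χ t) (Iio 0) ∧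
    ∀ t < 0, HasDerivAt (fun t => ∫ q, wF F q t ∂muM 2 F c χ t)
      (∫ q, (thF 2 F q t * wF F q t - 2 * g1F F q t) ∂muM 2 F c χ t) t

/-- MW (hMU : StMU)(hMS : StMS)(hGA : StGA)(hCN : StCN). Michael-Simon for `w`.

Proof. MS with `h = w`, `k = 2√(w g₁)` (continuous, `‖gdM w‖ ≤ k` by GA). Cauchy-Schwarz for integrals of
continuous functions: `(∫ √(w g₁))² ≤ ∫ w ∫ g₁`, `(∫ |H| w)² = (∫ √w √(Yw))² ≤ ∫ w ∫ Yw`. So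
`∫ w² ≤ 2(2√(∫w ∫g₁) + √(∫w ∫Yw))² ≤ 2 ∫w (8 ∫g₁ + 2 ∫Yw)`. -/
def StMW : Prop := ∀ (N : ℕ) (M : Type) [TopologicalSpace M] [T2Space M]
    [CompactSpace M] [SecondCountableTopology M] [MeasurableSpace M] [BorelSpace M]
    [ChartedSpace (EE 2) M] [IsManifold (𝓡 2) ∞ M] (F : M → ℝ → EE N) (c : ℕ → M)
    (χ : ℕ → M → ℝ), Setup 2 F c χ → ∀ t < 0,
    ∫ q, wF F q t ^ 2 ∂muM 2 F c χ t ≤ 4 * (∫ q, wF F q t ∂muM 2 F c χ t) *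
      (4 * (∫ q, g1F F q t ∂muM 2 F c χ t)
        + ∫ q, ‖HH (n := 2) F q t‖ ^ 2 * wF F q t ∂muM 2 F c χ t)

/-- EV (hMU : StMU)(hMW : StMW)(hEW : StEW)(hGA : StGA)(hML : StML)(hCN : StCN). Consequences for
`e = ∫ w/τ²`, at one time `t ≤ -1` with `|F| ≤ R√τ`.

Proof. `2τH = W - F^⊥`, `‖F^⊥‖ ≤ ‖F‖` (ML), so `4τ²Y ≤ 2(w + |F|²) ≤ 2(w + R²τ)`. With `G = ∫g₁ ≥ 0`,
`V = ∫Yw`, `e = ∫w/τ²`: `V ≤ (∫w² + R²τ∫w)/(2τ²) ≤ 2e(4G + V) + R²τe/2` (MW). If `e ≤ 1/16`: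
`(7/8)V ≤ 8eG + R²τe/2 ≤ G/2 + R²τe/2`, so `V ≤ (4/7)(G + R²τe)`. First claim. Derivative of `e`:
`e' = 2e/τ + τ⁻²∫(θw - 2g₁)` (EW; `d/dt τ⁻² = 2τ⁻³`), `∫θw ≤ V` (`θ ≤ Y` as `c₀ ≤ 1`), so
`e' ≤ 2e/τ - 2τ⁻²G + (4/7)τ⁻²G + (4/7)R²e/τ`. -/
def StEV : Prop := ∀ (N : ℕ) (M : Type) [TopologicalSpace M] [T2Space M]
    [CompactSpace M] [SecondCountableTopology M] [MeasurableSpace M] [BorelSpace M]
    [ChartedSpace (EE 2) M] [IsManifold (𝓡 2) ∞ M] (F : M → ℝ → EE N) (c : ℕ → M)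
    (χ : ℕ → M → ℝ), Setup 2 F c χ →
    (∀ (q : M) (t : ℝ), t < 0 → AA (n := 2) F q t ≤ ‖HH (n := 2) F q t‖ ^ 2) →
    ∀ R : ℝ, 0 < R → (∀ t ≤ -1, ∀ q, ‖F q t‖ ≤ R * Real.sqrt (-t)) →
    ∃ e g e' : ℝ → ℝ,
      (∀ t, e t = (∫ q, wF F q t ∂muM 2 F c χ t) / t ^ 2) ∧
      (∀ t, g t = (∫ q, g1F F q t ∂muM 2 F c χ t) / t ^ 2) ∧
      ContinuousOn e (Iio 0) ∧ ContinuousOn g (Iio 0) ∧
      ∀ t ≤ -1, 0 ≤ e t ∧ 0 ≤ g t ∧ HasDerivAt e (e' t) t ∧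
        (e t ≤ 1 / 16 →
          (∫ q, ‖HH (n := 2) F q t‖ ^ 2 * wF F q t ∂muM 2 F c χ t) / t ^ 2
              ≤ g t + R ^ 2 * (e t / (-t)) ∧
          e' t ≤ -g t + (2 + R ^ 2) * (e t / (-t)))

/-- OD. Real analysis: the window lemma.

Proof. `0 < ε₁ ≤ 1` small (chosen at the end in terms of `K, L, ε`). The integrals
`∫_{-T}^{-1} e/(-t) dt` are nondecreasing in `T` and bounded, so they converge; hence there is `T₀` with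
`∫_{-b}^{-a} e/(-t) dt ≤ ε₁` for all `T₀ ≤ a ≤ b`. Let `T ≥ T₀`. On `[-2LT, -LT]` there is `t*` with
`e(t*) log 2 ≤ ε₁` (`∫ dt/(-t) = log 2`), so `e(t*) ≤ 2ε₁`. Let `K' ≥ K` be a natural number, and
`m(t) = e(t)(-t)^K'`. As long as `e ≤ 1/16`: `m' = e'(-t)^K' - K' e (-t)^(K'-1) ≤ 0`, so
`e(t) ≤ e(t*)((-t*)/(-t))^K' ≤ 2ε₁ (2L)^K'` for `t ∈ [t*, -T]`. Choose `ε₁` with `2ε₁(2L)^K' < 1/16`: by
continuity (let `t₁` be the supremum of the `t ∈ [t*,-T]` such that `e ≤ 1/16` on `[t*,t]`; then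
`e(t₁) < 1/16`, so `t₁ = -T`) `e ≤ 1/16` on `[t*, -T] ⊇ [-LT,-T]`. Integrate `g ≤ -e' + Ke/(-t)` over
`[t*,-T]` (`e'` is integrable? avoid it: `e(t) + ∫_{t*}^t (g - K e/(-s)) ds` has nonpositive derivative, so it
is nonincreasing): `∫_{-LT}^{-T} g ≤ ∫_{t*}^{-T} g ≤ e(t*) + K∫ e/(-s) ≤ 2ε₁ + Kε₁`. Total
`≤ (3 + K)ε₁ ≤ ε`. -/
def StOD : Prop := ∀ (K C : ℝ), 0 ≤ K → ∀ e g e' : ℝ → ℝ, ContinuousOn e (Iio 0) →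
    ContinuousOn g (Iio 0) →
    (∀ t ≤ -1, 0 ≤ e t ∧ 0 ≤ g t ∧ HasDerivAt e (e' t) t ∧
      (e t ≤ 1 / 16 → e' t ≤ -g t + K * (e t / (-t)))) →
    (∀ T : ℝ, 1 ≤ T → ∫ t in (-T)..(-1), e t / (-t) ≤ C) →
    ∀ L ε : ℝ, 1 ≤ L → 0 < ε → ∃ T₀ : ℝ, 1 ≤ T₀ ∧ ∀ T : ℝ, T₀ ≤ T →
      (∀ t ∈ Icc (-(L * T)) (-T), e t ≤ 1 / 16) ∧
      ∫ t in (-(L * T))..(-T), (g t + e t / (-t)) ≤ ε

/-- WW (hEV : StEV)(hOD : StOD)(hHU : StHU)(hCO : StCO)(hCN : StCN)(hEW : StEW)(hTD : StTD)(hMU : StMU).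
Smallness of the error terms on long windows.

Proof. `R` from CO, `e, g, e'` from EV, `K = 2 + R²`; `e t/(-t) = ∫w/(-t)³` (`t² = (-t)²`), so HU is the
hypothesis of OD. For `t` in the window `∫Yw/t² ≤ g + R²e/(-t)` (EV), so
`∫(g1F + Yw)/(4t²) dμ = (g + ∫Yw/t²)/4 ≤ (2g + R²e/(-t))/4 ≤ (2 + R²)(g + e/(-t))`. Apply OD with
`ε/(2+R²)`; `intervalIntegral.integral_mono_on`, all functions of `t` are continuous on `(-∞,0)` (EW, TD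
first part, CN). -/
def StWW : Prop := ∀ (N : ℕ) (M : Type) [TopologicalSpace M] [T2Space M]
    [CompactSpace M] [ConnectedSpace M] [SecondCountableTopology M] [MeasurableSpace M]
    [BorelSpace M] [ChartedSpace (EE 2) M] [IsManifold (𝓡 2) ∞ M] (F : M → ℝ → EE N)
    (c : ℕ → M) (χ : ℕ → M → ℝ), Setup 2 F c χ → ∀ c₀ : ℝ, c₀ < 1 →
    (∀ (q : M) (t : ℝ), t < 0 → AA (n := 2) F q t ≤ c₀ * ‖HH (n := 2) F q t‖ ^ 2) →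
    ContinuousOn (fun t => (∫ q, (g1F F q t + ‖HH (n := 2) F q t‖ ^ 2 * wF F q t)
      ∂muM 2 F c χ t) / (4 * t ^ 2)) (Iio 0) ∧
    ∀ L ε : ℝ, 1 ≤ L → 0 < ε → ∃ T₀ : ℝ, 1 ≤ T₀ ∧ ∀ T : ℝ, T₀ ≤ T →
      ∫ t in (-(L * T))..(-T), (∫ q, (g1F F q t + ‖HH (n := 2) F q t‖ ^ 2 * wF F q t)
        ∂muM 2 F c χ t) / (4 * t ^ 2) ≤ ε

/-! ### The certificate, integrated -/

/-- CI1 (hMU : StMU)(hTD : StTD)(hFV : StFV)(hML : StML)(hGB : StGB)(hAF : StAF)(hMD : StMD)(hCN : StCN).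
The functional and its derivative.

Proof. `a q t = ggF · phF δ`, `∂_t ggF = ggF·(-κ⟨F,H⟩ - κ²|F|²)`, `κ = (-2t)⁻¹` (`d/dt (-2t)⁻¹ = 2κ²`, so
`d/dt(-κ|F|²/2) = -κ²|F|² - κ⟨F,H⟩`, `IsMCF.flow`). So TD:
`d/dt ∫ a = ∫ [G ∂_tφ - G φ(κ²|F|² + κ⟨F,H⟩ + Y)]` and this integrand is `dvg (WFd ..) - IgF δ` by the
definition of `IgF`; `∫ dvg (WFd 2 κ l (cD δ) F t) dμ_t = 0` (FV, ML at the fixed time `t`). The integrand is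
continuous in `q` (at fixed `t`), and `∫ IgF` is continuous in `t`, being `-∫[..]` with `CST` integrand.
Bounds: `0 ≤ phF δ ≤ Y` by AF with the jets of MD (`J3 A = (X,Y,Z)`, `X ≤ Y`), `0 < G ≤ 1` (GB). -/
def StCI1 : Prop := ∀ (N : ℕ) (M : Type) [TopologicalSpace M] [T2Space M]
    [CompactSpace M] [MeasurableSpace M] [BorelSpace M] [ChartedSpace (EE 2) M]
    [IsManifold (𝓡 2) ∞ M] (F : M → ℝ → EE N) (c : ℕ → M) (χ : ℕ → M → ℝ), Setup 2 F c χ →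
    (∀ (q : M) (t : ℝ), t < 0 → AA (n := 2) F q t ≤ ‖HH (n := 2) F q t‖ ^ 2) →
    ∀ δ : ℝ, 0 < δ →
    (∀ t < 0, Continuous (fun q => IgF δ F q t) ∧
      0 ≤ ∫ q, ggF F q t * phF δ F q t ∂muM 2 F c χ t ∧
      ∫ q, ggF F q t * phF δ F q t ∂muM 2 F c χ t
        ≤ ∫ q, ‖HH (n := 2) F q t‖ ^ 2 ∂muM 2 F c χ t ∧
      HasDerivAt (fun t => ∫ q, ggF F q t * phF δ F q t ∂muM 2 F c χ t)
        (-∫ q, IgF δ F q t ∂muM 2 F c χ t) t) ∧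
    ContinuousOn (fun t => ∫ q, IgF δ F q t ∂muM 2 F c χ t) (Iio 0)

/-- IN (hMU : StMU)(hTD : StTD)(hDC : StDC)(hPS : StPS)(hCI1 : StCI1)(hGB : StGB)(hAF : StAF)(hGA : StGA)
(hCN : StCN)(hEW : StEW). The integrated inequality, `δ → 0`.

Proof. `η, C` from PS. For `δ > 0` integrate PS over `M_t` and over `[t₁,t₂]`; CI1:
`∫_{t₁}^{t₂} ∫ IgF = Φ(t₁) - Φ(t₂) ≤ Φ(t₁) ≤ ∫ Y dμ_{t₁}`. So
`η ∫∫ G ρ_δ Yθ ≤ ∫ Y dμ_{t₁} + C ∫∫ (g₁ + Yw)/(4t²) + C ∫∫ ρ_δ(1-ρ_δ)(g₂ + Y² + Y|F|²/(4t²))`. Take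
`δ_j = 1/(j+1)`. DC: (1) `k_j = ρ(1-ρ)(g₂ + ..)` is `CST`, bounded on `M × [t₁,t₂]` by a bound of the second
factor (`0 ≤ ρ ≤ 1`), and tends to `0` pointwise (`Y > 0`: `ρ_j → 1`; `Y = 0`: `ρ_j = 0`).
(2) `k_j = G(1-ρ_j)Yθ → 0` in the same way. So the limit is the claim (all functions of `t` are
continuous: EW, TD). -/
def StIN : Prop := ∀ c₀ : ℝ, c₀ < 5 / 6 → ∃ η C : ℝ, 0 < η ∧ 0 ≤ C ∧
    ∀ (N : ℕ) (M : Type) [TopologicalSpace M] [T2Space M]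
    [CompactSpace M] [MeasurableSpace M] [BorelSpace M] [ChartedSpace (EE 2) M]
    [IsManifold (𝓡 2) ∞ M] (F : M → ℝ → EE N) (c : ℕ → M) (χ : ℕ → M → ℝ), Setup 2 F c χ →
    (∀ (q : M) (t : ℝ), t < 0 → AA (n := 2) F q t ≤ c₀ * ‖HH (n := 2) F q t‖ ^ 2) →
    ∀ t₁ t₂ : ℝ, t₁ ≤ t₂ → t₂ < 0 →
    η * (∫ t in t₁..t₂, ∫ q, ggF F q t * (‖HH (n := 2) F q t‖ ^ 2 * thF 2 F q t)
        ∂muM 2 F c χ t)
      ≤ (∫ q, ‖HH (n := 2) F q t₁‖ ^ 2 ∂muM 2 F c χ t₁)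
        + C * ∫ t in t₁..t₂, (∫ q, (g1F F q t + ‖HH (n := 2) F q t‖ ^ 2 * wF F q t)
          ∂muM 2 F c χ t) / (4 * t ^ 2)

/-- SQ2 (hMU : StMU)(hIN : StIN)(hWW : StWW)(hAE : StAE)(hCO : StCO)(hGB : StGB)(hAF : StAF)(hTD : StTD)
(hCN : StCN)(hMD : StMD)(hSE : StSE). Times with small `∫θ`.

Proof. `c₀ < 5/6 < 1`. AE: `∫Y ≤ C₁`, `μ_t(M) ≤ C₁τ` for `t ≤ -1`; CO: `|F| ≤ R√τ`, so `G ≥ e^{-R²/4}`
(`G = exp(-|F|²/(4τ))`). IN on the window `[-LT,-T]`, `T ≥ T₀(L, ε = 1)` from WW: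
`η e^{-R²/4} ∫_{-LT}^{-T} B(t) dt ≤ C₁ + C`, `B(t) = ∫ Yθ dμ_t ≥ 0` (`θ ≥ 0`: SE with the jets of MD).
If `τ B(t) > b` for all `t` in the window then `∫ B > b log L`. So some `t ∈ [-LT,-T]` has
`τB(t) ≤ C₂/log L`, `C₂ = (C₁ + C)e^{R²/4}/η`. `θ ≤ Y` (`2X - Y ≤ (2c₀-1)Y ≤ Y`), so
`(∫θ)² ≤ μ_t(M) ∫θ² ≤ C₁τ B(t) ≤ C₁C₂/log L` (Cauchy-Schwarz). Choose `L` large, `T ≥ T₁`. -/
def StSQ2 : Prop := ∀ (N : ℕ) (M : Type) [TopologicalSpace M] [T2Space M]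
    [CompactSpace M] [ConnectedSpace M] [SecondCountableTopology M] [MeasurableSpace M]
    [BorelSpace M] [ChartedSpace (EE 2) M] [IsManifold (𝓡 2) ∞ M] (F : M → ℝ → EE N)
    (c : ℕ → M) (χ : ℕ → M → ℝ), Setup 2 F c χ → ∀ c₀ : ℝ, c₀ < 5 / 6 →
    (∀ (q : M) (t : ℝ), t < 0 → AA (n := 2) F q t ≤ c₀ * ‖HH (n := 2) F q t‖ ^ 2) →
    ∀ ε T₁ : ℝ, 0 < ε → ∃ t ≤ -T₁, t ≤ -1 ∧ ∫ q, thF 2 F q t ∂muM 2 F c χ t ≤ ε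

/-! ### Small energy -/

/-- SG (hMD : StMD)(hML : StML)(hSE : StSE)(hMA : StMA)(hCN : StCN). Pointwise facts for `θ`, one time.

Proof. Jets from MD; MD with `μ = 1/2` gives (uniqueness of derivatives) `∂_tθ = dvg V + 2(1+μ)hX - hY +
4μ eq2 - 4μ AAH`, so `g3F = Yθ - (2(1+μ)hX - hY + 4μ eq2 - 4μ AAH) ≥ (2/3)tq T + ½Yθ - 3θ²` (SE first
claim). `θ = φ(i4F)` with `φ p = 2 p.1 - p.2.1` (linear), `gdM θ = WFd 2 0 0 (cφ φ)` (ML), by MD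
`‖WFd‖² = Σ (2gX - gY)²`, and `2 gX A T k - gY A T k = vk 0 A T k`; SE third claim:
`≤ 200 θ tq ≤ 300 θ (g₃ - ½Yθ + 3θ²)`. Continuity in `q`: MA, the definition of `dvg` (continuous for a `C¹`
field; take it from ML: use `hFV`-free argument: `dvg (VF)` is `dvc` of a smooth field, MA last part; or
take FV as a hypothesis). -/
def StSG : Prop := ∀ (N : ℕ) (M : Type) [TopologicalSpace M] [ChartedSpace (EE 2) M]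
    [IsManifold (𝓡 2) ∞ M] (F : M → ℝ → EE N), IsMCF (n := 2) F → ∀ t < 0,
    ContMDiff (𝓡 2) 𝓘(ℝ, ℝ) 1 (fun q => thF 2 F q t) ∧
    ∀ q, 0 ≤ thF 2 F q t ∧
      1 / 2 * (‖HH (n := 2) F q t‖ ^ 2 * thF 2 F q t) - 3 * thF 2 F q t ^ 2 ≤ g3F F q t ∧
      ‖gdM 2 F t (fun q => thF 2 F q t) q‖ ^ 2 ≤ 300 * (thF 2 F q t * (g3F F q t
        - 1 / 2 * (‖HH (n := 2) F q t‖ ^ 2 * thF 2 F q t) + 3 * thF 2 F q t ^ 2))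

/-- SM (hMU : StMU)(hTD : StTD)(hFV : StFV)(hMS : StMS)(hSG : StSG)(hMA : StMA)(hML : StML)(hCN : StCN).
Small energy: `a(t) = ∫θ` does not increase while `a ≤ 1/7200`.

Proof. `θ = φ(i4F)` with linear `φ`: `CST` with `CST` derivative (ML). TD: `a' = ∫(∂_tθ - Yθ)`; FV, MA:
`∫ dvg V = 0` (`V = VF 2 (1/2) F t`, `⟨H,V⟩ = 0`), `dvg V` continuous, so `a' = -∫ g₃`. MS with `h = θ`,
`k = √(300 θ (g₃ - ½Yθ + 3θ²))` (continuous in `q`), Cauchy-Schwarz, `S = ∫θ²`, `B = ∫Yθ ≥ 0`,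
`G = ∫g₃`: `S ≤ 2(√(a·300(G - B/2 + 3S)) + √(aB))² ≤ 4a(300(G - B/2 + 3S) + B) ≤ 1200aG + 3600aS`. With
`a ≤ 1/7200`: `S/2 ≤ 1200 a G`. If `a > 0` then `G ≥ 0`. If `a = 0`: `S ≤ 0`, so `S = 0` and
`G ≥ B/2 - 3S ≥ 0`. -/
def StSM : Prop := ∀ (N : ℕ) (M : Type) [TopologicalSpace M] [T2Space M]
    [CompactSpace M] [SecondCountableTopology M] [MeasurableSpace M]
    [BorelSpace M] [ChartedSpace (EE 2) M] [IsManifold (𝓡 2) ∞ M] (F : M → ℝ → EE N)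
    (c : ℕ → M) (χ : ℕ → M → ℝ), Setup 2 F c χ →
    ∃ a' : ℝ → ℝ, ∀ t < 0, 0 ≤ ∫ q, thF 2 F q t ∂muM 2 F c χ t ∧
      HasDerivAt (fun t => ∫ q, thF 2 F q t ∂muM 2 F c χ t) (a' t) t ∧
      ((∫ q, thF 2 F q t ∂muM 2 F c χ t) ≤ 1 / 7200 → a' t ≤ 0)

/-- OB. Real analysis.

Proof. Let `t < 0`, `ε ∈ (0, m)`. Choose `s ≤ t` with `a s ≤ ε`. Claim `a ≤ ε` on `[s,t]`: let `r₁` be the
supremum of the `r ∈ [s,t]` with `a ≤ ε` on `[s,r]`... if `r₁ < t` then `a r₁ ≤ ε < m` by continuity, so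
`a ≤ m` on `[r₁, r₁+h]`, hence `a' ≤ 0` there and `a ≤ a r₁ ≤ ε` on it, a contradiction. So `a t ≤ ε`. -/
def StOB : Prop := ∀ (m : ℝ) (a a' : ℝ → ℝ), 0 < m →
    (∀ t < 0, 0 ≤ a t ∧ HasDerivAt a (a' t) t ∧ (a t ≤ m → a' t ≤ 0)) →
    (∀ ε T : ℝ, 0 < ε → ∃ t ≤ -T, a t ≤ ε) → ∀ t < 0, a t = 0

/-! ### Conclusion -/

/-- RD (hV5)(hSQ2 : StSQ2)(hSM : StSM)(hOB : StOB)(hFS : StFS)(hSG : StSG)(hCN : StCN)(hMD : StMD)(hFN)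
(hPO-type facts). The main theorem.

Proof. `c₀ = 5/6 - ε` (`Pinched 2 (5/6) F`). Give `M` its Borel sets (`borel M`), `c, χ` from V5
(`Helper35.PI` StV5; `M` nonempty). SQ2 and SM are the hypotheses of OB (`m = 1/7200`), so `∫θ dμ_t = 0` for
all `t < 0`; `θ ≥ 0` continuous (SG), FS: `θ = 0`, i.e. `AA = ‖HH‖²/2`. Then `AA ‖HH‖² = ZF`:
`ZF = ZZ A ≤ XX A · YY A` and `YY A² ≤ 2 ZZ A` (Cauchy-Schwarz for the jets of MD, see AF), so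
`Y² ≤ 2Z ≤ 2XY = Y²`. FN (`Helper35.PI2.StFN`, proved: `Helper35.PI2.All.tFN`) with `n = 2`, `c = 3/4`
(`Pinched 2 (3/4) F` with `ε = 1/4`, since `AA = (3/4 - 1/4)‖HH‖²`). -/
def StRD : Prop := ForcesRound (5 / 6)

/-- VU. Upper bound: the shrinking Veronese surface is closed; see
`Pool/Agent/Results/MP_b2fa09_gt/VeroneseBound.lean` and `Pool/Agent/Helper93/MCF/Sph.lean`.

Proof. Let `F = VF : S2 → ℝ → EE 5` there (`S2` compact, connected; `|A|² = (5/6)|H|² ≠ 0`, no time slice in an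
affine hyperplane). Their definitions are copies of those of `Helper35.PI` (check: `IsMCF`, `AA`, `HH`,
`Pinched`, `CodimOne`). If `c > 5/6` then `VF` is `Pinched 2 c` (`ε = c - 5/6`), so `ForcesClosed 2 c` would
give a subspace `W` of dimension 3 containing it, contradicting `FullSlices` (`3 < 5`: `W` lies in a
hyperplane). So every `c` with `ForcesClosed 2 c` is `≤ 5/6`. -/
def StVU : Prop := ∀ c : ℝ, ForcesClosed 2 c → c ≤ 5 / 6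

/-- FI (hRD : StRD)(hVU : StVU). Final form.

Proof. `ForcesClosed 2 (5/6)`: RD with `N ≥ 3`; upper bound VU. `cClosed 2 = sSup ..`: `le_antisymm`. -/
def StFI : Prop := cClosed 2 = ((5 / 6 : ℝ) : EReal) ∧ ForcesRound (5 / 6)

end Helper32.CL
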