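import Pool.Agent.Helper32.CL.St3
import Pool.Agent.Helper93.MCF.PIup

/-!
Project CL, modules VU and FI.
-/

set_option autoImplicit false

namespace Helper32.CL

open Helper35.PI Set Filter Metric Module
open scoped ContDiff Manifold Topology

/-- the shrinking Veronese surface is closed and exactly `5/6`-pinched -/
theorem hVU : StVU := by
  intro c hF
  by_contra hcon
  push Not at hcon
  have hconn : ConnectedSpace Pool.Agent.Helper93.MCF.S2 := by
    have h : IsConnected (sphere (0 : EE 3) 1) := by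
      apply isConnected_sphere _ _ zero_le_one
      rw [← Module.finrank_eq_rank, finrank_euclideanSpace_fin]
      norm_num
    exact isConnected_iff_connectedSpace.mp h
  have hM : IsManifold (𝓡 2) ∞ Pool.Agent.Helper93.MCF.S2 := by
    have h : IsManifold (𝓡 2) ω Pool.Agent.Helper93.MCF.S2 :=
      EuclideanSpace.instIsManifoldSphere (E := EE 3) (n := 2)
    exact IsManifold.of_le (n := ω) le_top
  have hC : CompactSpace Pool.Agent.Helper93.MCF.S2 := by
    have h : CompactSpace (sphere (0 : EE 3) 1) := inferInstance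
    exact h
  have hP : Helper35.PI.Pinched 2 c Pool.Agent.Helper93.MCF.VF := by
    refine ⟨c - 5 / 6, by linarith, fun p t ht => ?_⟩
    rw [Pool.Agent.Helper93.MCF.AA_VF, Pool.Agent.Helper93.MCF.HH_VF]
    have := Pool.Agent.Helper93.MCF.ratio_ver _ (Pool.Agent.Helper93.MCF.rad_pos ht) p
    have e : Pool.Agent.Helper93.MCF.Asq 2 (Pool.Agent.Helper93.MCF.VF · t) p
        = 5 / 6 * ‖Pool.Agent.Helper93.MCF.Hvec 2 (Pool.Agent.Helper93.MCF.VF · t) p‖ ^ 2 := this
    rw [e]
    apply le_of_eq
    ring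
  obtain ⟨S, hS1, hS2⟩ := hF 5 (by norm_num) Pool.Agent.Helper93.MCF.S2
    Pool.Agent.Helper93.MCF.VF Pool.Agent.Helper93.MCF.isMCF_VF hP
  have h1 := Pool.Agent.Helper93.MCF.full_VF (-1) (by norm_num) S
    (fun p => hS2 p (-1) (by norm_num))
  rw [h1, finrank_top, finrank_euclideanSpace_fin] at hS1
  norm_num at hS1

theorem hFI (hRD : StRD) (hVU : StVU) : StFI := by
  refine ⟨le_antisymm ?_ ?_, hRD⟩
  · apply sSup_le
    rintro _ ⟨c, rfl, _, hc⟩
    exact EReal.coe_le_coe_iff.mpr (hVU c hc)
  · apply le_sSup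
    refine ⟨5 / 6, rfl, by norm_num, ?_⟩
    intro N hN M _ _ _ _ _ _ _ F hF hP
    exact (hRD N hN M F hF hP).1

end Helper32.CL
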